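import Pool.Agent.H99.NearCore

/-!
# Core inequalities for (nonsymmetric) bodies close to a parallelotope

`x` is a point of the body `P ⊆ [-1, 1] ^ d`, `p` a normal vector of `P` at `x` (a point of the polar
body), `c j` the offset of the two contact points `c j ± e_j` of `P` with the facets of the cube.
-/

set_option autoImplicit false

open Finset

namespace Pool.Agent.H99.Abs

variable {d : ℕ}

/-- Directions with full weights. -/
theorem natural (x e p : Fin d → ℝ) (he : ∀ i, e i = 1 ∨ e i = -1) (hx : ∀ i, |x i| ≤ 1)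
    (hxe : ∀ i, -(2 / 5) ≤ x i * e i) (hp : ∑ i, |p i| ≤ 7 / 5) (hpx : ∑ i, p i * x i = 1) :
    1 / 20 ≤ ∑ i, e i * p i := by
  have key : ∀ i, p i * x i ≤ 7 / 10 * |p i| + 3 / 10 * (e i * p i) := by
    intro i
    have h1 := hx i
    have h2 := hxe i
    rw [abs_le] at h1
    rcases he i with h | h <;> rw [h] at h2 ⊢ <;> rcases abs_cases (p i) with ⟨h3, h4⟩ | ⟨h3, h4⟩ <;>
      rw [h3] <;> nlinarith
  have h := Finset.sum_le_sum fun i (_ : i ∈ Finset.univ) => key i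
  rw [Finset.sum_add_distrib, ← Finset.mul_sum, ← Finset.mul_sum, hpx] at h
  linarith

theorem real_single (r t q A B G : ℝ) (hr0 : 0 < r) (hr1 : r ≤ 2 / 5) (ht1 : -1 ≤ t)
    (ht2 : t ≤ 2 / 5) (h1 : 1 ≤ q * t + 7 / 10 * A + 3 / 10 * B) (h2 : |q| + B ≤ 1 + r)
    (h3 : |q| + G ≤ 1) (h4 : -G ≤ B) : r / 50 ≤ A - 4 / 5 * G - 57 / 100 * r * q := by
  rcases abs_cases q with ⟨h5, h6⟩ | ⟨h5, h6⟩
  · rw [h5] at h2 h3
    have h7 : q * t ≤ 2 / 5 * q := by nlinarith
    have h8 : q ≤ 1 + r / 2 := by linarith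
    nlinarith [mul_nonneg h6 hr0.le, mul_nonneg h6 (sub_nonneg.mpr hr1)]
  · rw [h5] at h2 h3
    have h7 : q * t ≤ -q := by nlinarith
    have h8 : -q ≤ 1 + r / 2 := by linarith
    have h9 : 1 + q - 3 / 7 * r ≤ A := by linarith
    by_cases hs : r ≤ 7 / 20
    · nlinarith [mul_nonneg (neg_nonneg.mpr h6.le) hr0.le,
        mul_nonneg (sub_nonneg.mpr h8) (sub_nonneg.mpr hs)]
    · push Not at hs
      nlinarith [mul_nonneg (neg_nonneg.mpr h6.le) hr0.le,
        mul_nonneg (neg_nonneg.mpr h6.le) (sub_nonneg.mpr hs.le),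
        mul_nonneg (sub_nonneg.mpr h8) hr0.le]

theorem real_least (r ξ q A B G : ℝ) (hr0 : 0 < r) (hr1 : r ≤ 2 / 5) (hξ : 2 / 5 ≤ ξ)
    (hξ2 : ξ * (1 + r) ≤ 1) (h1 : 1 ≤ q * ξ + (1 + ξ) / 2 * A + (1 - ξ) / 2 * B)
    (h2 : |q| + B ≤ 1 + r) (h3 : |q| + G ≤ 1) (h4 : -G ≤ B) :
    r / 50 ≤ A - 4 / 5 * G - 57 / 100 * r * q := by
  have hξ1 : ξ ≤ 1 := by nlinarith
  by_contra hcon
  push Not at hcon
  rcases abs_cases q with ⟨h5, h6⟩ | ⟨h5, h6⟩
  · rw [h5] at h2 h3
    have h8 : q ≤ 1 + r / 2 := by linarith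
    have hA : A ≤ r / 50 + 4 / 5 * (1 - q) + 57 / 100 * r * q := by linarith
    have hB : B ≤ 1 + r - q := by linarith
    have hA' := mul_le_mul_of_nonneg_left hA (by linarith : 0 ≤ (1 + ξ) / 2)
    have hB' := mul_le_mul_of_nonneg_left hB (by linarith : 0 ≤ (1 - ξ) / 2)
    have h9 : 1 ≤ q * ξ + (1 + ξ) / 2 * (r / 50 + 4 / 5 * (1 - q) + 57 / 100 * r * q) +
        (1 - ξ) / 2 * (1 + r - q) := by linarith
    -- the values at the ends
    have e0 : (1 + ξ) / 2 * (r / 50 + 4 / 5) + (1 - ξ) / 2 * (1 + r) < 1 := by nlinarith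
    have e1 : ξ * (1 + 345 / 1000 * r + 1425 / 10000 * r ^ 2) <
        1 - 345 / 1000 * r - 1425 / 10000 * r ^ 2 := by
      have h10 : ξ * (1 + r) * (1 + 345 / 1000 * r + 1425 / 10000 * r ^ 2) ≤
          1 * (1 + 345 / 1000 * r + 1425 / 10000 * r ^ 2) :=
        mul_le_mul_of_nonneg_right hξ2 (by positivity)
      have h11 : (1 + 345 / 1000 * r + 1425 / 10000 * r ^ 2) <
          (1 + r) * (1 - 345 / 1000 * r - 1425 / 10000 * r ^ 2) := by
        nlinarith [mul_pos hr0 hr0, mul_nonneg (mul_nonneg hr0.le hr0.le) (sub_nonneg.mpr hr1),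
          mul_nonneg hr0.le (sub_nonneg.mpr hr1)]
      have h12 : (1 + r) * (ξ * (1 + 345 / 1000 * r + 1425 / 10000 * r ^ 2)) <
          (1 + r) * (1 - 345 / 1000 * r - 1425 / 10000 * r ^ 2) := by
        calc _ = ξ * (1 + r) * (1 + 345 / 1000 * r + 1425 / 10000 * r ^ 2) := by ring
          _ ≤ _ := h10
          _ = _ := one_mul _
          _ < _ := h11
      exact lt_of_mul_lt_mul_left h12 (by linarith)
    -- linear in `q`
    set L := 1 + r / 2 with hL
    have hLpos : 0 < L := by linarith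
    have e1' : L * ξ + (1 + ξ) / 2 * (r / 50 + 4 / 5 * (1 - L) + 57 / 100 * r * L) +
        (1 - ξ) / 2 * (1 + r - L) < 1 := by
      rw [hL]; nlinarith
    have hlin : L * (q * ξ + (1 + ξ) / 2 * (r / 50 + 4 / 5 * (1 - q) + 57 / 100 * r * q) +
        (1 - ξ) / 2 * (1 + r - q)) =
        q * (L * ξ + (1 + ξ) / 2 * (r / 50 + 4 / 5 * (1 - L) + 57 / 100 * r * L) +
          (1 - ξ) / 2 * (1 + r - L)) +
        (L - q) * ((1 + ξ) / 2 * (r / 50 + 4 / 5) + (1 - ξ) / 2 * (1 + r)) := by ring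
    have h13 : L * 1 ≤ L * (q * ξ + (1 + ξ) / 2 * (r / 50 + 4 / 5 * (1 - q) + 57 / 100 * r * q) +
        (1 - ξ) / 2 * (1 + r - q)) := mul_le_mul_of_nonneg_left h9 hLpos.le
    rw [hlin] at h13
    have h14 : 0 ≤ L - q := by linarith
    rcases h6.eq_or_lt with h15 | h15
    · rw [← h15] at h13
      have := mul_lt_mul_of_pos_left e0 hLpos
      linarith
    · have h16 := mul_lt_mul_of_pos_left e1' h15
      have h17 := mul_le_mul_of_nonneg_left e0.le h14
      linarith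
  · rw [h5] at h2 h3
    have hA : A ≤ r / 50 + 4 / 5 * (1 + q) + 57 / 100 * r * q := by linarith
    have hB : B ≤ 1 + r + q := by linarith
    have hA' := mul_le_mul_of_nonneg_left hA (by linarith : 0 ≤ (1 + ξ) / 2)
    have hB' := mul_le_mul_of_nonneg_left hB (by linarith : 0 ≤ (1 - ξ) / 2)
    have e0 : (1 + ξ) / 2 * (r / 50 + 4 / 5) + (1 - ξ) / 2 * (1 + r) < 1 := by nlinarith
    have h10 : q * ξ ≤ 0 := mul_nonpos_of_nonpos_of_nonneg h6.le (by linarith)
    have h11 : (1 + ξ) / 2 * (4 / 5 * q + 57 / 100 * r * q) ≤ 0 :=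
      mul_nonpos_of_nonneg_of_nonpos (by linarith) (by nlinarith)
    have h12 : (1 - ξ) / 2 * q ≤ 0 := mul_nonpos_of_nonneg_of_nonpos (by linarith) h6.le
    nlinarith

/-- All coordinates but the `j`-th are at least `2/5` and the `j`-th is at most `2/5`. -/
theorem single (r : ℝ) (hr0 : 0 < r) (hr1 : r ≤ 2 / 5) (x p c : Fin d → ℝ) (j : Fin d)
    (hx : ∀ i, |x i| ≤ 1) (hxj : x j ≤ 2 / 5) (hxi : ∀ i, i ≠ j → 2 / 5 ≤ x i)
    (hc : ∀ i, |c i| ≤ 1) (hG : |p j| + ∑ i ∈ univ.erase j, c i * p i ≤ 1)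
    (hp : ∑ i, |p i| ≤ 1 + r) (hpx : ∑ i, p i * x i = 1) :
    r / 50 ≤ ∑ i ∈ univ.erase j, (1 - 4 / 5 * c i) * p i - 57 / 100 * r * p j := by
  have h := Near.rest x p j (2 / 5) (by norm_num) (fun i => (abs_le.mp (hx i)).2) hxi
  rw [← Finset.add_sum_erase _ _ (Finset.mem_univ j)] at hp hpx
  have hGB : -∑ i ∈ univ.erase j, c i * p i ≤ ∑ i ∈ univ.erase j, |p i| := by
    rw [← Finset.sum_neg_distrib]
    apply Finset.sum_le_sum
    intro i _
    have h1 := neg_abs_le (c i * p i)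
    rw [abs_mul] at h1
    have h2 := mul_le_mul_of_nonneg_right (hc i) (abs_nonneg (p i))
    linarith
  have e : ∑ i ∈ univ.erase j, (1 - 4 / 5 * c i) * p i =
      ∑ i ∈ univ.erase j, p i - 4 / 5 * ∑ i ∈ univ.erase j, c i * p i := by
    rw [Finset.mul_sum, ← Finset.sum_sub_distrib]
    apply Finset.sum_congr rfl
    intro i _
    ring
  rw [e]
  refine real_single r (x j) (p j) _ (∑ i ∈ univ.erase j, |p i|) _ hr0 hr1 (abs_le.mp (hx j)).1 hxj
    ?_ hp hG hGB
  rw [show ((1 : ℝ) + 2 / 5) / 2 = 7 / 10 by norm_num,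
    show ((1 : ℝ) - 2 / 5) / 2 = 3 / 10 by norm_num] at h
  linarith

/-- All coordinates are at least `2/5`, and the `j`-th is the smallest. -/
theorem least (r : ℝ) (hr0 : 0 < r) (hr1 : r ≤ 2 / 5) (x y p c : Fin d → ℝ) (j : Fin d)
    (hx : ∀ i, |x i| ≤ 1) (hxj : 2 / 5 ≤ x j) (hmin : ∀ i, x j ≤ x i)
    (hy : ∀ i, 0 ≤ y i) (hys : ∑ i, y i = 1 + r) (hxy : ∑ i, x i * y i ≤ 1)
    (hc : ∀ i, |c i| ≤ 1) (hG : |p j| + ∑ i ∈ univ.erase j, c i * p i ≤ 1)
    (hp : ∑ i, |p i| ≤ 1 + r) (hpx : ∑ i, p i * x i = 1) :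
    r / 50 ≤ ∑ i ∈ univ.erase j, (1 - 4 / 5 * c i) * p i - 57 / 100 * r * p j := by
  have hm : x j * (1 + r) ≤ 1 := by
    rw [← hys, Finset.mul_sum]
    refine le_trans (Finset.sum_le_sum fun i _ => ?_) hxy
    exact mul_le_mul_of_nonneg_right (hmin i) (hy i)
  have h := Near.rest x p j (x j) (by linarith) (fun i => (abs_le.mp (hx i)).2) (fun i _ => hmin i)
  rw [← Finset.add_sum_erase _ _ (Finset.mem_univ j)] at hp hpx
  have hGB : -∑ i ∈ univ.erase j, c i * p i ≤ ∑ i ∈ univ.erase j, |p i| := by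
    rw [← Finset.sum_neg_distrib]
    apply Finset.sum_le_sum
    intro i _
    have h1 := neg_abs_le (c i * p i)
    rw [abs_mul] at h1
    have h2 := mul_le_mul_of_nonneg_right (hc i) (abs_nonneg (p i))
    linarith
  have e : ∑ i ∈ univ.erase j, (1 - 4 / 5 * c i) * p i =
      ∑ i ∈ univ.erase j, p i - 4 / 5 * ∑ i ∈ univ.erase j, c i * p i := by
    rw [Finset.mul_sum, ← Finset.sum_sub_distrib]
    apply Finset.sum_congr rfl
    intro i _
    ring
  rw [e]
  refine real_least r (x j) (p j) _ (∑ i ∈ univ.erase j, |p i|) _ hr0 hr1 hxj hm ?_ hp hG hGB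
  linarith

/-- The directions. `c j` are the offsets of the contact points. -/
noncomputable def dir (r : ℝ) (c : Fin d → Fin d → ℝ) (S : Finset (Fin d)) (i : Fin d) : ℝ :=
  if i ∈ S then (if S.card = 1 then -(57 / 100 * r) else -1)
  else (if S.card = 1 then 1 - 4 / 5 * ∑ j ∈ S, c j i else 1)

theorem dir_singleton_sum (r : ℝ) (c : Fin d → Fin d → ℝ) (j : Fin d) (p : Fin d → ℝ) :
    ∑ i, dir r c {j} i * p i =
      ∑ i ∈ univ.erase j, (1 - 4 / 5 * c j i) * p i - 57 / 100 * r * p j := by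
  rw [← Finset.add_sum_erase _ _ (Finset.mem_univ j)]
  have h1 : dir r c {j} j = -(57 / 100 * r) := by simp [dir]
  have h2 : ∑ i ∈ univ.erase j, dir r c {j} i * p i =
      ∑ i ∈ univ.erase j, (1 - 4 / 5 * c j i) * p i := by
    apply Finset.sum_congr rfl
    intro i hi
    have hij : i ≠ j := (Finset.mem_erase.mp hi).1
    simp [dir, hij]
  rw [h1, h2]
  ring

/-- The conditions on the normal vectors `p` at `x`. -/
def Normal (r : ℝ) (c : Fin d → Fin d → ℝ) (x p : Fin d → ℝ) : Prop :=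
  (∀ j, |p j| + ∑ i ∈ univ.erase j, c j i * p i ≤ 1) ∧ ∑ i, |p i| ≤ 1 + r ∧ ∑ i, p i * x i = 1

/-- The covering lemma. -/
theorem cover (r : ℝ) (hr0 : 0 < r) (hr1 : r ≤ 2 / 5) (c : Fin d → Fin d → ℝ)
    (hc : ∀ j i, |c j i| ≤ 1) (x y : Fin d → ℝ)
    (hx : ∀ i, |x i| ≤ 1) (hy : ∀ i, 0 ≤ y i) (hys : ∑ i, y i = 1 + r)
    (hxy : ∑ i, x i * y i ≤ 1) :
    ∃ S : Finset (Fin d), S.Nonempty ∧ ∀ p, Normal r c x p → r / 50 ≤ ∑ i, dir r c S i * p i := by
  rcases Nat.lt_or_ge 1 (univ.filter fun i => x i ≤ 2 / 5).card with h2 | h1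
  · set L := univ.filter fun i => x i ≤ 2 / 5 with hLdef
    refine ⟨L, Finset.card_pos.mp (by omega), ?_⟩
    intro p hp
    have hc : L.card ≠ 1 := by omega
    have hd : ∀ i, dir r c L i = if i ∈ L then -1 else 1 := by
      intro i; simp only [dir, hc, if_false]
    have h := natural x (fun i => if i ∈ L then -1 else 1) p
      (fun i => by by_cases h : i ∈ L <;> simp [h]) hx ?_ (by linarith [hp.2.1]) hp.2.2
    · simp only [hd]
      linarith
    · intro i
      have hxi := abs_le.mp (hx i)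
      by_cases h : i ∈ L
      · have : x i ≤ 2 / 5 := by simpa [hLdef] using h
        simp only [h, if_true]; linarith
      · have : ¬ x i ≤ 2 / 5 := by simpa [hLdef] using h
        simp only [h, if_false]; linarith
  · obtain ⟨j, hj⟩ : ∃ j : Fin d, ∀ p, Normal r c x p →
        r / 50 ≤ ∑ i ∈ univ.erase j, (1 - 4 / 5 * c j i) * p i - 57 / 100 * r * p j := by
      rcases Nat.lt_or_ge (univ.filter fun i => x i ≤ 2 / 5).card 1 with h0 | h1'
      · have hne : (univ : Finset (Fin d)).Nonempty := by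
          rw [Finset.univ_nonempty_iff]
          by_contra hcon
          rw [not_nonempty_iff] at hcon
          simp at hys
          linarith
        obtain ⟨j, -, hj⟩ := Finset.exists_min_image univ x hne
        refine ⟨j, fun p hp => least r hr0 hr1 x y p (c j) j hx ?_ (fun i => hj i (mem_univ i)) hy
          hys hxy (hc j) (hp.1 j) hp.2.1 hp.2.2⟩
        by_contra hcon
        push Not at hcon
        have : j ∈ univ.filter fun i => x i ≤ 2 / 5 := by simp [hcon.le]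
        have := Finset.card_pos.mpr ⟨j, this⟩
        omega
      · have hc' : (univ.filter fun i => x i ≤ 2 / 5).card = 1 := le_antisymm h1 h1'
        obtain ⟨j, hj⟩ := Finset.card_eq_one.mp hc'
        have hjm : j ∈ univ.filter fun i => x i ≤ 2 / 5 := by rw [hj]; simp
        refine ⟨j, fun p hp => single r hr0 hr1 x p (c j) j hx (by simpa using hjm) ?_ (hc j)
          (hp.1 j) hp.2.1 hp.2.2⟩
        intro i hij
        by_contra hcon
        push Not at hcon
        have : i ∈ univ.filter fun i => x i ≤ 2 / 5 := by simp [hcon.le]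
        rw [hj] at this
        exact hij (by simpa using this)
    refine ⟨{j}, Finset.singleton_nonempty j, fun p hp => ?_⟩
    rw [dir_singleton_sum]
    exact hj p hp

/-- All `2 ^ d` directions. -/
theorem cover0 (r : ℝ) (hr1 : r ≤ 2 / 5) (x : Fin d → ℝ) (hx : ∀ i, |x i| ≤ 1) :
    ∃ S : Finset (Fin d), ∀ p : Fin d → ℝ, ∑ i, |p i| ≤ 1 + r → ∑ i, p i * x i = 1 →
      1 / 20 ≤ ∑ i, (if i ∈ S then (-1 : ℝ) else 1) * p i := by
  refine ⟨univ.filter fun i => x i ≤ 0, fun p hp1 hp2 => ?_⟩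
  refine natural x _ p (fun i => ?_) hx (fun i => ?_) (by linarith) hp2
  · by_cases h : x i ≤ 0 <;> simp [h]
  · by_cases h : x i ≤ 0
    · simp only [mem_filter, mem_univ, true_and, h, if_true]; linarith
    · simp only [mem_filter, mem_univ, true_and, h, if_false]; linarith

end Pool.Agent.H99.Abs
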