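import Pool.Agent.H99.AbsCore
import Pool.Agent.H99.AbsMatrix

/-!
# A circumscribed parallelotope with opposite contact points
-/

set_option autoImplicit false

open Finset Matrix
open scoped Pointwise

namespace Pool.Agent.H99.Abs

variable {d : ℕ}

/-- Linear functionals are dot products. -/
theorem exists_dot (f : (Fin d → ℝ) →L[ℝ] ℝ) : ∃ p : Fin d → ℝ, ∀ x, f x = p ⬝ᵥ x := by
  classical
  refine ⟨fun i => f (Pi.single i 1), fun x => ?_⟩
  have h : x = ∑ i, x i • (Pi.single i (1 : ℝ) : Fin d → ℝ) := by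
    ext j
    simp [Finset.sum_apply, Pi.single_apply]
  conv_lhs => rw [h]
  rw [map_sum, dotProduct]
  apply Finset.sum_congr rfl
  intro i _
  rw [map_smul, smul_eq_mul, mul_comm]

/-- Separation of a point from a compact convex set. -/
theorem separate (P : Set (Fin d → ℝ)) (hPc : IsCompact P) (hPcv : Convex ℝ P) (x : Fin d → ℝ)
    (hx : x ∉ P) : ∃ (p : Fin d → ℝ) (u : ℝ), (∀ a ∈ P, p ⬝ᵥ a < u) ∧ u < p ⬝ᵥ x := by
  obtain ⟨f, u, h1, h2⟩ := geometric_hahn_banach_closed_point hPcv hPc.isClosed hx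
  obtain ⟨p, hp⟩ := exists_dot f
  refine ⟨p, u, fun a ha => ?_, ?_⟩
  · rw [← hp]; exact h1 a ha
  · rw [← hp]; exact h2

theorem abs_dot_le (p x : Fin d → ℝ) (b : ℝ) (hx : ∀ i, |x i| ≤ b) :
    p ⬝ᵥ x ≤ b * ∑ i, |p i| := by
  rw [dotProduct, Finset.mul_sum]
  apply Finset.sum_le_sum
  intro i _
  have h1 := le_abs_self (p i * x i)
  rw [abs_mul] at h1
  have h2 := mul_le_mul_of_nonneg_left (hx i) (abs_nonneg (p i))
  linarith

theorem exists_sign (p : Fin d → ℝ) (b : ℝ) (hb : 0 ≤ b) :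
    ∃ x : Fin d → ℝ, (∀ i, |x i| ≤ b) ∧ p ⬝ᵥ x = b * ∑ i, |p i| := by
  refine ⟨fun i => if 0 ≤ p i then b else -b, fun i => ?_, ?_⟩
  · by_cases h : 0 ≤ p i
    · simp only [h, if_true]; rw [abs_of_nonneg hb]
    · simp only [h, if_false]; rw [abs_neg, abs_of_nonneg hb]
  · rw [dotProduct, Finset.mul_sum]
    apply Finset.sum_congr rfl
    intro i _
    by_cases h : 0 ≤ p i
    · simp only [h, if_true]; rw [abs_of_nonneg h]; ring
    · simp only [h, if_false]; push Not at h; rw [abs_of_neg h]; ring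

/-- The frame. -/
theorem exists_frame (P : Set (Fin d → ℝ)) (hPc : IsCompact P) (hPcv : Convex ℝ P)
    (hin : ∀ x : Fin d → ℝ, (∀ i, |x i| ≤ 100 / 109) → x ∈ P)
    (hout : ∀ x ∈ P, ∀ i, |x i| ≤ 1) :
    ∃ M : Matrix (Fin d) (Fin d) ℝ, IsUnit M.det ∧ (∀ i, ∑ k, |M i k| ≤ 109 / 100) ∧
      ∃ (z : Fin d → ℝ) (c : Fin d → Fin d → ℝ),
      (∀ x ∈ P, ∀ i, |(M *ᵥ x) i - z i| ≤ 1) ∧
      (∀ X : Fin d → ℝ, (∀ i, |X i - z i| ≤ 5 / 7) → ∃ x ∈ P, M *ᵥ x = X) ∧
      (∀ j, c j j = 0) ∧
      (∀ j, ∃ x ∈ P, ∀ i, (M *ᵥ x) i = z i + c j i + if i = j then 1 else 0) ∧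
      (∀ j, ∃ x ∈ P, ∀ i, (M *ᵥ x) i = z i + c j i - if i = j then 1 else 0) := by
  classical
  let T : Set (Fin d → ℝ) := ⋂ x ∈ P, ⋂ x' ∈ P, {p | p ⬝ᵥ x - p ⬝ᵥ x' ≤ 2}
  have hTmem : ∀ p, p ∈ T ↔ ∀ x ∈ P, ∀ x' ∈ P, p ⬝ᵥ x - p ⬝ᵥ x' ≤ 2 := by
    intro p
    simp only [T, Set.mem_iInter, Set.mem_ofPred_eq]
  have hcontdot : ∀ x : Fin d → ℝ, Continuous fun p : Fin d → ℝ => p ⬝ᵥ x := by
    intro x
    simp only [dotProduct]
    exact continuous_finsetSum _ fun i _ => (continuous_apply i).mul continuous_const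
  have hTcl : IsClosed T := by
    refine isClosed_iInter fun x => isClosed_iInter fun _ => isClosed_iInter fun x' =>
      isClosed_iInter fun _ => ?_
    exact isClosed_le ((hcontdot x).sub (hcontdot x')) continuous_const
  have hT1 : ∀ t ∈ T, ∑ i, |t i| ≤ 109 / 100 := by
    intro t ht
    obtain ⟨x, hx1, hx2⟩ := exists_sign t (100 / 109) (by norm_num)
    have h := (hTmem t).mp ht x (hin x hx1) (-x) (hin _ fun i => by
      rw [Pi.neg_apply, abs_neg]; exact hx1 i)
    rw [dotProduct_neg, hx2] at h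
    linarith
  have hTc : IsCompact T := by
    have hbox : IsCompact (Set.univ.pi fun _ : Fin d => Set.Icc (-(109 / 100) : ℝ) (109 / 100)) :=
      isCompact_univ_pi fun _ => isCompact_Icc
    refine hbox.of_isClosed_subset hTcl ?_
    intro t ht i _
    have h1 := hT1 t ht
    have h2 : |t i| ≤ ∑ l, |t l| :=
      Finset.single_le_sum (fun l _ => abs_nonneg (t l)) (mem_univ i)
    exact abs_le.mp (le_trans h2 h1)
  have hTcv : Convex ℝ T := by
    intro s hs t ht a b ha hb hab
    rw [hTmem] at hs ht ⊢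
    intro x hx x' hx'
    have h1 := hs x hx x' hx'
    have h2 := ht x hx x' hx'
    simp only [add_dotProduct, smul_dotProduct, smul_eq_mul]
    have h3 := mul_le_mul_of_nonneg_left h1 ha
    have h4 := mul_le_mul_of_nonneg_left h2 hb
    nlinarith
  have hTs : ∀ t ∈ T, -t ∈ T := by
    intro t ht
    rw [hTmem] at ht ⊢
    intro x hx x' hx'
    have := ht x' hx' x hx
    rw [neg_dotProduct, neg_dotProduct]
    linarith
  have hTe : ∀ i, Pi.single i (1 : ℝ) ∈ T := by
    intro i
    rw [hTmem]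
    intro x hx x' hx'
    rw [single_one_dotProduct, single_one_dotProduct]
    have h1 := (abs_le.mp (hout x hx i)).2
    have h2 := (abs_le.mp (hout x' hx' i)).1
    linarith
  obtain ⟨M, hMT, hunit, hdiag, hM⟩ := exists_frame_matrix T hTc hTcv hTs hTe hT1
  have hrow : ∀ i, ∑ k, |M i k| ≤ 109 / 100 := fun i => hT1 _ (hMT i)
  have hMM : M * M⁻¹ = 1 := Matrix.mul_nonsing_inv M hunit
  -- the difference body
  have hDc : IsCompact (P - P) := by
    rw [sub_eq_add_neg]
    exact hPc.add hPc.neg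
  have hDcv : Convex ℝ (P - P) := hPcv.sub hPcv
  have h0P : (0 : Fin d → ℝ) ∈ P := hin 0 fun i => by
    rw [Pi.zero_apply, abs_zero]; norm_num
  have hcontact : ∀ i, ∃ a ∈ P, ∃ b ∈ P, ∀ k, (M *ᵥ a) k - (M *ᵥ b) k = if k = i then 2 else 0 := by
    intro i
    have hg : (fun k => 2 * M⁻¹ k i) ∈ P - P := by
      by_contra hcon
      obtain ⟨p, u, h1, h2⟩ := separate (P - P) hDc hDcv _ hcon
      have hu : 0 < u := by
        have := h1 0 (by
          have := Set.sub_mem_sub h0P h0P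
          rwa [sub_zero] at this)
        rwa [dotProduct_zero] at this
      have hq : (2 / u) • p ∈ T := by
        rw [hTmem]
        intro x hx x' hx'
        have h3 := h1 _ (Set.sub_mem_sub hx hx')
        rw [dotProduct_sub] at h3
        rw [smul_dotProduct, smul_dotProduct, smul_eq_mul, smul_eq_mul, ← mul_sub]
        have h4 := mul_le_mul_of_nonneg_left h3.le (by positivity : 0 ≤ 2 / u)
        have h5 : 2 / u * u = 2 := by field_simp
        linarith
      have h3 := hM _ hq i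
      have h4 : (((2 / u) • p) ᵥ* M⁻¹) i = 1 / u * (p ⬝ᵥ fun k => 2 * M⁻¹ k i) := by
        simp only [Matrix.vecMul, dotProduct, Pi.smul_apply, smul_eq_mul, Finset.mul_sum]
        apply Finset.sum_congr rfl
        intro k _
        ring
      rw [h4] at h3
      have h5 := (abs_le.mp h3).2
      have h6 := mul_lt_mul_of_pos_left h2 (by positivity : 0 < 1 / u)
      have h7 : 1 / u * u = 1 := by field_simp
      linarith
    obtain ⟨a, ha, b, hb, hab⟩ := hg
    refine ⟨a, ha, b, hb, fun k => ?_⟩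
    have h1 : (M *ᵥ (a - b)) k = if k = i then 2 else 0 := by
      have h2 : a - b = fun k => 2 * M⁻¹ k i := hab
      rw [h2]
      simp only [Matrix.mulVec, dotProduct]
      have h3 : ∑ l, M k l * (2 * M⁻¹ l i) = 2 * (M * M⁻¹) k i := by
        rw [Matrix.mul_apply, Finset.mul_sum]
        apply Finset.sum_congr rfl
        intro l _
        ring
      rw [h3, hMM, Matrix.one_apply]
      split_ifs <;> norm_num
    rw [Matrix.mulVec_sub] at h1
    exact h1
  choose a ha b hb hab using hcontact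
  have hmax : ∀ x ∈ P, ∀ x' ∈ P, ∀ i, (M *ᵥ x) i - (M *ᵥ x') i ≤ 2 := fun x hx x' hx' i =>
    (hTmem (M i)).mp (hMT i) x hx x' hx'
  let z : Fin d → ℝ := fun i => (M *ᵥ a i) i - 1
  have hz : ∀ i, |z i| ≤ 93 / 1000 := by
    intro i
    have hx : ∀ σ : ℝ, |σ| ≤ 100 / 109 → (Pi.single i σ : Fin d → ℝ) ∈ P := by
      intro σ hσ
      apply hin
      intro k
      by_cases hk : k = i
      · subst hk; simpa using hσ
      · simp only [Pi.single_eq_of_ne hk, abs_zero]; norm_num
    have h1 := hmax _ (ha i) _ (hx (-(100 / 109)) (by rw [abs_neg]; norm_num [abs_of_pos])) i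
    have h2 := hmax _ (hx (100 / 109) (by norm_num [abs_of_pos])) _ (hb i) i
    have h3 := hab i i
    rw [if_pos rfl] at h3
    have e : ∀ σ : ℝ, (M *ᵥ Pi.single i σ) i = M i i * σ := by
      intro σ
      rw [Matrix.mulVec, dotProduct_single]
    rw [e] at h1 h2
    have h4 := hdiag i
    simp only [z]
    rw [abs_le]
    constructor <;> linarith
  let c : Fin d → Fin d → ℝ := fun j i => (M *ᵥ a j) i - z i - if i = j then 1 else 0
  refine ⟨M, hunit, hrow, z, c, ?_, ?_, ?_, ?_, ?_⟩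
  · intro x hx i
    have h1 := hmax _ (ha i) _ hx i
    have h2 := hmax _ hx _ (hb i) i
    have h3 := hab i i
    rw [if_pos rfl] at h3
    simp only [z]
    rw [abs_le]
    constructor <;> linarith
  · intro X hX
    refine ⟨M⁻¹ *ᵥ X, ?_, by rw [Matrix.mulVec_mulVec, hMM, Matrix.one_mulVec]⟩
    apply hin
    set x := M⁻¹ *ᵥ X with hx
    have hMx : M *ᵥ x = X := by rw [hx, Matrix.mulVec_mulVec, hMM, Matrix.one_mulVec]
    rcases isEmpty_or_nonempty (Fin d) with he | hne
    · intro i; exact he.elim i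
    obtain ⟨k, -, hk⟩ := Finset.exists_max_image univ (fun k => |x k|)
      (Finset.univ_nonempty (α := Fin d))
    have hk' : ∀ l, |x l| ≤ |x k| := fun l => hk l (mem_univ l)
    have h1 : (M *ᵥ x) k = M k k * x k + ∑ l ∈ univ.erase k, M k l * x l := by
      rw [Matrix.mulVec, dotProduct, ← Finset.add_sum_erase _ _ (mem_univ k)]
    have hMk : 0 ≤ M k k := by linarith [hdiag k]
    have h2 : |∑ l ∈ univ.erase k, M k l * x l| ≤ (109 / 100 - M k k) * |x k| := by
      have h3 : |∑ l ∈ univ.erase k, M k l * x l| ≤ ∑ l ∈ univ.erase k, |M k l| * |x k| := by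
        refine le_trans (Finset.abs_sum_le_sum_abs _ _) (Finset.sum_le_sum fun l _ => ?_)
        rw [abs_mul]
        exact mul_le_mul_of_nonneg_left (hk' l) (abs_nonneg _)
      rw [← Finset.sum_mul] at h3
      have h4 := hrow k
      rw [← Finset.add_sum_erase _ _ (mem_univ k), abs_of_nonneg hMk] at h4
      have h5 := mul_le_mul_of_nonneg_right
        (by linarith : ∑ l ∈ univ.erase k, |M k l| ≤ 109 / 100 - M k k) (abs_nonneg (x k))
      linarith
    have h3 : M k k * |x k| - (109 / 100 - M k k) * |x k| ≤ |(M *ᵥ x) k| := by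
      rw [h1]
      have h4 := abs_sub_abs_le_abs_sub (M k k * x k) (-∑ l ∈ univ.erase k, M k l * x l)
      rw [sub_neg_eq_add, abs_neg, abs_mul, abs_of_nonneg hMk] at h4
      linarith
    rw [hMx] at h3
    have h4 : |X k| ≤ 5 / 7 + 93 / 1000 := by
      have h5 := abs_add_le (X k - z k) (z k)
      rw [sub_add_cancel] at h5
      linarith [hX k, hz k]
    have h5 : |x k| ≤ 100 / 109 := by
      have h6 := mul_le_mul_of_nonneg_right (hdiag k) (abs_nonneg (x k))
      nlinarith [abs_nonneg (x k)]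
    exact fun i => le_trans (hk' i) h5
  · intro j
    simp only [c, z, if_true]
    ring
  · intro j
    refine ⟨a j, ha j, fun i => ?_⟩
    simp only [c]
    ring
  · intro j
    refine ⟨b j, hb j, fun i => ?_⟩
    have h := hab j i
    simp only [c]
    split_ifs at h ⊢ <;> linarith

end Pool.Agent.H99.Abs
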