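import Pool.Agent.H99.AbsFrame

/-!
# Illuminating a body close to a parallelotope
-/

set_option autoImplicit false

open Finset Matrix

namespace Pool.Agent.H99.Abs

variable {d : ℕ}

/-- The family `s` of vectors covers the normal cones of `P`: for each point `x` of `P` some `s k`
has a positive inner product with all normal vectors `p` of `P` at `x`. The size of `p` is measured
by `p x - p x₀`. -/
def Covers {ι : Type} (P : Set (Fin d → ℝ)) (x₀ : Fin d → ℝ) (s : ι → Fin d → ℝ) : Prop :=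
  ∃ c : ℝ, 0 < c ∧ ∀ x ∈ P, ∃ k, ∀ p : Fin d → ℝ, (∀ x' ∈ P, p ⬝ᵥ x' ≤ p ⬝ᵥ x) →
    c * (p ⬝ᵥ x - p ⬝ᵥ x₀) ≤ s k ⬝ᵥ p

theorem main (P : Set (Fin d → ℝ)) (hPc : IsCompact P) (hPcv : Convex ℝ P)
    (hin : ∀ x : Fin d → ℝ, (∀ i, |x i| ≤ 100 / 109) → x ∈ P)
    (hout : ∀ x ∈ P, ∀ i, |x i| ≤ 1) :
    ∃ x₀ : Fin d → ℝ, (∀ x : Fin d → ℝ, (∀ i, |x i - x₀ i| ≤ 1 / 2) → x ∈ P) ∧
      (∃ s : Finset (Fin d) → Fin d → ℝ, Covers P x₀ s) ∧
      ((∃ (M : Matrix (Fin d) (Fin d) ℝ) (z : Fin d → ℝ), IsUnit M.det ∧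
        ∀ x, x ∈ P ↔ ∀ i, |(M *ᵥ x) i - z i| ≤ 1) ∨
        ∃ s : {S : Finset (Fin d) // S.Nonempty} → Fin d → ℝ, Covers P x₀ s) := by
  classical
  obtain ⟨M, hunit, hrow, z, c, hQ, hinner, hcc, hcp, hcm⟩ := exists_frame P hPc hPcv hin hout
  have hMM : M * M⁻¹ = 1 := Matrix.mul_nonsing_inv M hunit
  have hMM' : M⁻¹ * M = 1 := Matrix.nonsing_inv_mul M hunit
  -- the centre
  set x₀ : Fin d → ℝ := M⁻¹ *ᵥ z with hx₀
  have hMx₀ : M *ᵥ x₀ = z := by rw [hx₀, Matrix.mulVec_mulVec, hMM, Matrix.one_mulVec]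
  have hMinj : ∀ x x' : Fin d → ℝ, M *ᵥ x = M *ᵥ x' → x = x' := by
    intro x x' h
    have := congrArg (fun y => M⁻¹ *ᵥ y) h
    simpa only [Matrix.mulVec_mulVec, hMM', Matrix.one_mulVec] using this
  have hx₀in : ∀ x : Fin d → ℝ, (∀ i, |x i - x₀ i| ≤ 1 / 2) → x ∈ P := by
    intro x hx
    obtain ⟨x', hx', h⟩ := hinner (M *ᵥ x) (by
      intro i
      have h1 : (M *ᵥ x) i - z i = M i ⬝ᵥ (x - x₀) := by
        have : (M *ᵥ (x - x₀)) i = M i ⬝ᵥ (x - x₀) := rfl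
        rw [← this, Matrix.mulVec_sub, hMx₀, Pi.sub_apply]
      have h2 := abs_dot_le (M i) (x - x₀) (1 / 2) (fun k => by rw [Pi.sub_apply]; exact hx k)
      have h3 := abs_dot_le (M i) (-(x - x₀)) (1 / 2) (fun k => by
        rw [Pi.neg_apply, Pi.sub_apply, abs_neg]; exact hx k)
      rw [dotProduct_neg] at h3
      have h4 := hrow i
      rw [h1, abs_le]
      constructor <;> linarith)
    rw [← hMinj _ _ h]
    exact hx'
  have hx₀P : x₀ ∈ P := hx₀in x₀ fun i => by rw [sub_self, abs_zero]; norm_num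
  -- coordinates of functionals
  have hdual : ∀ (p x : Fin d → ℝ), (p ᵥ* M⁻¹) ⬝ᵥ (M *ᵥ x) = p ⬝ᵥ x := by
    intro p x
    rw [← Matrix.dotProduct_mulVec, Matrix.mulVec_mulVec, hMM', Matrix.one_mulVec]
  -- the polar body of `M P - z`
  let K : Set (Fin d → ℝ) := ⋂ x ∈ P, {q | q ⬝ᵥ (M *ᵥ x) - q ⬝ᵥ z ≤ 1}
  have hKmem : ∀ q, q ∈ K ↔ ∀ x ∈ P, q ⬝ᵥ (M *ᵥ x) - q ⬝ᵥ z ≤ 1 := by
    intro q
    simp only [K, Set.mem_iInter, Set.mem_ofPred_eq]
  have hcontdot : ∀ x : Fin d → ℝ, Continuous fun p : Fin d → ℝ => p ⬝ᵥ x := by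
    intro x
    simp only [dotProduct]
    exact continuous_finsetSum _ fun i _ => (continuous_apply i).mul continuous_const
  have hKcl : IsClosed K := by
    refine isClosed_iInter fun x => isClosed_iInter fun _ => ?_
    exact isClosed_le ((hcontdot _).sub (hcontdot _)) continuous_const
  have hK1 : ∀ q ∈ K, ∑ i, |q i| ≤ 7 / 5 := by
    intro q hq
    obtain ⟨w, hw1, hw2⟩ := exists_sign q (5 / 7) (by norm_num)
    obtain ⟨x, hx, hxw⟩ := hinner (z + w) (fun i => by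
      rw [Pi.add_apply, add_sub_cancel_left]; exact hw1 i)
    have h := (hKmem q).mp hq x hx
    rw [hxw, dotProduct_add, hw2] at h
    linarith
  have hKc : IsCompact K := by
    have hbox : IsCompact (Set.univ.pi fun _ : Fin d => Set.Icc (-(7 / 5) : ℝ) (7 / 5)) :=
      isCompact_univ_pi fun _ => isCompact_Icc
    refine hbox.of_isClosed_subset hKcl ?_
    intro t ht i _
    have h1 := hK1 t ht
    have h2 : |t i| ≤ ∑ l, |t l| :=
      Finset.single_le_sum (fun l _ => abs_nonneg (t l)) (mem_univ i)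
    exact abs_le.mp (le_trans h2 h1)
  have hKne : K.Nonempty := ⟨0, by
    rw [hKmem]; intro x _; rw [zero_dotProduct, zero_dotProduct]; norm_num⟩
  have hgc : Continuous fun q : Fin d → ℝ => ∑ i, |q i| :=
    continuous_finsetSum _ fun i _ => (continuous_apply i).abs
  obtain ⟨y, hyK, hymax⟩ := hKc.exists_isMaxOn hKne hgc.continuousOn
  have hymax' : ∀ q ∈ K, ∑ i, |q i| ≤ ∑ i, |y i| := fun q hq => hymax hq
  -- the size of a normal vector
  have hlam : ∀ x ∈ P, ∀ p : Fin d → ℝ, (∀ x' ∈ P, p ⬝ᵥ x' ≤ p ⬝ᵥ x) →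
      5 / 7 * ∑ i, |(p ᵥ* M⁻¹) i| ≤ p ⬝ᵥ x - p ⬝ᵥ x₀ := by
    intro x _ p hp
    obtain ⟨w, hw1, hw2⟩ := exists_sign (p ᵥ* M⁻¹) (5 / 7) (by norm_num)
    obtain ⟨x', hx', hxw⟩ := hinner (z + w) (fun i => by
      rw [Pi.add_apply, add_sub_cancel_left]; exact hw1 i)
    have h1 := hp x' hx'
    have h2 : p ⬝ᵥ x' = p ⬝ᵥ x₀ + 5 / 7 * ∑ i, |(p ᵥ* M⁻¹) i| := by
      rw [← hdual p x', hxw, dotProduct_add, hw2, ← hMx₀, hdual]
    linarith
  -- normalised functionals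
  have hnorm : ∀ x ∈ P, ∀ p : Fin d → ℝ, (∀ x' ∈ P, p ⬝ᵥ x' ≤ p ⬝ᵥ x) →
      0 < p ⬝ᵥ x - p ⬝ᵥ x₀ →
      (p ⬝ᵥ x - p ⬝ᵥ x₀)⁻¹ • (p ᵥ* M⁻¹) ∈ K ∧
      ∑ i, ((p ⬝ᵥ x - p ⬝ᵥ x₀)⁻¹ • (p ᵥ* M⁻¹)) i * ((M *ᵥ x) i - z i) = 1 := by
    intro x _ p hp hpos
    set l := p ⬝ᵥ x - p ⬝ᵥ x₀ with hl
    constructor
    · rw [hKmem]
      intro x' hx'
      rw [smul_dotProduct, smul_dotProduct, smul_eq_mul, smul_eq_mul, ← mul_sub, hdual, ← hMx₀,
        hdual]
      have h1 := hp x' hx'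
      have h2 : l⁻¹ * (p ⬝ᵥ x' - p ⬝ᵥ x₀) ≤ l⁻¹ * l :=
        mul_le_mul_of_nonneg_left (by linarith) (inv_nonneg.mpr hpos.le)
      rwa [inv_mul_cancel₀ hpos.ne'] at h2
    · have h1 : ∑ i, (l⁻¹ • (p ᵥ* M⁻¹)) i * ((M *ᵥ x) i - z i) =
          (l⁻¹ • (p ᵥ* M⁻¹)) ⬝ᵥ (M *ᵥ x) - (l⁻¹ • (p ᵥ* M⁻¹)) ⬝ᵥ z := by
        rw [dotProduct, dotProduct, ← Finset.sum_sub_distrib]
        apply Finset.sum_congr rfl
        intro i _
        ring
      rw [h1, smul_dotProduct, smul_dotProduct, smul_eq_mul, smul_eq_mul, ← mul_sub, hdual,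
        ← hMx₀, hdual, inv_mul_cancel₀ hpos.ne']
  -- a normal vector of size zero vanishes
  have hzero : ∀ x ∈ P, ∀ p : Fin d → ℝ, (∀ x' ∈ P, p ⬝ᵥ x' ≤ p ⬝ᵥ x) →
      ¬ 0 < p ⬝ᵥ x - p ⬝ᵥ x₀ → p = 0 ∧ p ⬝ᵥ x - p ⬝ᵥ x₀ = 0 := by
    intro x hx p hp hpos
    push Not at hpos
    have h1 := hlam x hx p hp
    have h2 : 0 ≤ ∑ i, |(p ᵥ* M⁻¹) i| := Finset.sum_nonneg fun i _ => abs_nonneg _
    have h3 : ∑ i, |(p ᵥ* M⁻¹) i| = 0 := by linarith
    have h4 : p ᵥ* M⁻¹ = 0 := by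
      funext i
      exact abs_eq_zero.mp ((Finset.sum_eq_zero_iff_of_nonneg fun i _ => abs_nonneg _).mp h3 i
        (mem_univ i))
    have h5 : p = 0 := by
      have := congrArg (fun q => q ᵥ* M) h4
      simpa only [Matrix.vecMul_vecMul, hMM', Matrix.vecMul_one, Matrix.zero_vecMul] using this
    refine ⟨h5, ?_⟩
    rw [h5, zero_dotProduct, zero_dotProduct, sub_zero]
  -- transfer of a covering lemma
  have htrans : ∀ {ι : Type} (D : ι → Fin d → ℝ) (c₀ : ℝ), 0 < c₀ →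
      (∀ x ∈ P, ∃ k, ∀ q ∈ K, ∑ i, q i * ((M *ᵥ x) i - z i) = 1 → c₀ ≤ D k ⬝ᵥ q) →
      Covers P x₀ fun k => M⁻¹ *ᵥ D k := by
    intro ι D c₀ hc₀ h
    refine ⟨c₀, hc₀, fun x hx => ?_⟩
    obtain ⟨k, hk⟩ := h x hx
    refine ⟨k, fun p hp => ?_⟩
    by_cases hpos : 0 < p ⬝ᵥ x - p ⬝ᵥ x₀
    · obtain ⟨h1, h2⟩ := hnorm x hx p hp hpos
      have h3 := hk _ h1 h2
      rw [dotProduct_smul, smul_eq_mul] at h3
      have h4 := mul_le_mul_of_nonneg_left h3 hpos.le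
      rw [← mul_assoc, mul_inv_cancel₀ hpos.ne', one_mul] at h4
      have h5 : (M⁻¹ *ᵥ D k) ⬝ᵥ p = D k ⬝ᵥ (p ᵥ* M⁻¹) := by
        rw [dotProduct_comm, Matrix.dotProduct_mulVec, dotProduct_comm]
      rw [h5]
      linarith
    · obtain ⟨h1, h2⟩ := hzero x hx p hp hpos
      rw [h2, h1, dotProduct_zero, mul_zero]
  refine ⟨x₀, hx₀in, ?_, ?_⟩
  · refine ⟨_, htrans (fun (S : Finset (Fin d)) i => if i ∈ S then -1 else 1) (1 / 20)
      (by norm_num) ?_⟩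
    intro x hx
    obtain ⟨S, hS⟩ := cover0 (2 / 5) le_rfl (fun i => (M *ᵥ x) i - z i) (hQ x hx)
    refine ⟨S, fun q hq h1 => hS q ?_ h1⟩
    have := hK1 q hq
    linarith
  by_cases hr : ∑ i, |y i| ≤ 1
  · -- `P` is a parallelotope
    left
    refine ⟨M, z, hunit, fun x => ⟨fun hx => hQ x hx, fun hx => ?_⟩⟩
    by_contra hcon
    obtain ⟨p, u, h1, h2⟩ := separate P hPc hPcv x hcon
    have h3 : 0 < u - p ⬝ᵥ x₀ := by linarith [h1 x₀ hx₀P]
    set l := u - p ⬝ᵥ x₀ with hl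
    have hqK : l⁻¹ • (p ᵥ* M⁻¹) ∈ K := by
      rw [hKmem]
      intro x' hx'
      rw [smul_dotProduct, smul_dotProduct, smul_eq_mul, smul_eq_mul, ← mul_sub, hdual, ← hMx₀,
        hdual]
      have h4 := h1 x' hx'
      have h5 : l⁻¹ * (p ⬝ᵥ x' - p ⬝ᵥ x₀) ≤ l⁻¹ * l :=
        mul_le_mul_of_nonneg_left (by linarith) (inv_nonneg.mpr h3.le)
      rwa [inv_mul_cancel₀ h3.ne'] at h5
    have h4 := le_trans (hymax' _ hqK) hr
    have h5 := abs_dot_le (l⁻¹ • (p ᵥ* M⁻¹)) (M *ᵥ x - z) 1 (fun i => by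
      rw [Pi.sub_apply]; exact hx i)
    rw [dotProduct_sub, smul_dotProduct, smul_dotProduct, smul_eq_mul, smul_eq_mul, ← mul_sub,
      hdual, ← hMx₀, hdual] at h5
    have h6 : l⁻¹ * l < l⁻¹ * (p ⬝ᵥ x - p ⬝ᵥ x₀) :=
      mul_lt_mul_of_pos_left (by linarith) (inv_pos.mpr h3)
    rw [inv_mul_cancel₀ h3.ne'] at h6
    linarith
  · right
    push Not at hr
    set r := ∑ i, |y i| - 1 with hrdef
    have hr0 : 0 < r := by linarith
    have hr1 : r ≤ 2 / 5 := by linarith [hK1 y hyK]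
    -- the signs
    let σ : Fin d → ℝ := fun i => if 0 ≤ y i then 1 else -1
    have hσabs : ∀ i, |σ i| = 1 := by
      intro i
      simp only [σ]
      split_ifs <;> simp
    have hσσ : ∀ i, σ i * σ i = 1 := by
      intro i
      simp only [σ]
      split_ifs <;> norm_num
    have hσy : ∀ i, σ i * y i = |y i| := by
      intro i
      simp only [σ]
      split_ifs with h
      · rw [abs_of_nonneg h, one_mul]
      · push Not at h
        rw [abs_of_neg h]; ring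
    let c' : Fin d → Fin d → ℝ := fun j i => σ i * c j i
    have hc1 : ∀ j i, |c j i| ≤ 1 := by
      intro j i
      by_cases hij : i = j
      · subst hij; rw [hcc, abs_zero]; exact zero_le_one
      · obtain ⟨x, hx, hxc⟩ := hcp j
        have h1 := hQ x hx i
        rw [hxc, if_neg hij] at h1
        have e : z i + c j i + 0 - z i = c j i := by ring
        rwa [e] at h1
    have hc'1 : ∀ j i, |c' j i| ≤ 1 := by
      intro j i
      simp only [c']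
      rw [abs_mul, hσabs, one_mul]
      exact hc1 j i
    refine ⟨_, htrans (fun (S : {S : Finset (Fin d) // S.Nonempty}) i => σ i * dir r c' S.1 i)
      (r / 50) (by linarith) ?_⟩
    intro x hx
    obtain ⟨S, hS1, hS2⟩ := cover r hr0 hr1 c' hc'1 (fun i => σ i * ((M *ᵥ x) i - z i))
      (fun i => |y i|) (fun i => by rw [abs_mul, hσabs, one_mul]; exact hQ x hx i)
      (fun i => abs_nonneg _) (by rw [hrdef]; ring) (by
        have h1 := (hKmem y).mp hyK x hx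
        have h2 : ∑ i, σ i * ((M *ᵥ x) i - z i) * |y i| = y ⬝ᵥ (M *ᵥ x) - y ⬝ᵥ z := by
          rw [dotProduct, dotProduct, ← Finset.sum_sub_distrib]
          apply Finset.sum_congr rfl
          intro i _
          rw [← hσy i]
          linear_combination ((M *ᵥ x) i - z i) * y i * hσσ i
        rw [h2]; exact h1)
    refine ⟨⟨S, hS1⟩, fun q hq h1 => ?_⟩
    have h2 := hS2 (fun i => σ i * q i) ⟨?_, ?_, ?_⟩
    · refine le_trans h2 (le_of_eq ?_)
      rw [dotProduct]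
      apply Finset.sum_congr rfl
      intro i _
      ring
    · intro j
      rw [abs_mul, hσabs, one_mul]
      have e : ∑ i ∈ univ.erase j, c' j i * (σ i * q i) = q ⬝ᵥ c j := by
        rw [dotProduct, ← Finset.add_sum_erase _ _ (mem_univ j), hcc, mul_zero, zero_add]
        apply Finset.sum_congr rfl
        intro i _
        simp only [c']
        linear_combination c j i * q i * hσσ i
      rw [e]
      obtain ⟨x1, hx1, hx1c⟩ := hcp j
      obtain ⟨x2, hx2, hx2c⟩ := hcm j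
      have h3 := (hKmem q).mp hq x1 hx1
      have h4 := (hKmem q).mp hq x2 hx2
      have e1 : M *ᵥ x1 = z + c j + Pi.single j 1 := by
        ext i
        rw [hx1c, Pi.add_apply, Pi.add_apply, Pi.single_apply]
      have e2 : M *ᵥ x2 = z + c j - Pi.single j 1 := by
        ext i
        rw [hx2c, Pi.sub_apply, Pi.add_apply, Pi.single_apply]
      rw [e1, dotProduct_add, dotProduct_add, dotProduct_single, mul_one] at h3
      rw [e2, dotProduct_sub, dotProduct_add, dotProduct_single, mul_one] at h4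
      rcases abs_cases (q j) with ⟨h5, _⟩ | ⟨h5, _⟩ <;> rw [h5] <;> linarith
    · have h3 := hymax' q hq
      have e : ∑ i, |σ i * q i| = ∑ i, |q i| := by
        apply Finset.sum_congr rfl
        intro i _
        rw [abs_mul, hσabs, one_mul]
      rw [e]
      linarith
    · rw [← h1]
      apply Finset.sum_congr rfl
      intro i _
      linear_combination q i * ((M *ᵥ x) i - z i) * hσσ i

end Pool.Agent.H99.Abs
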