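import Pool.Agent.H99.NearMain

/-!
# Cross-bodies need `2 ^ d` hyperplanes; sharpness of `2 ^ d - 1` and `2 ^ d - 2`
-/

set_option autoImplicit false

open Finset
open scoped InnerProductSpace Matrix

namespace Pool.Agent.H99.Near

variable {d : ℕ}

/-- Cross-bodies centred at `o`. -/
def IsCrossBody (K : Set (EuclideanSpace ℝ (Fin d))) (o : EuclideanSpace ℝ (Fin d)) : Prop :=
  ∃ v : Fin d → EuclideanSpace ℝ (Fin d), ∃ t : Fin d → ℝ, LinearIndependent ℝ v ∧
    (∀ i, 0 < t i) ∧
      K = convexHull ℝ (⋃ i, ({o + v i, o - t i • v i} : Set (EuclideanSpace ℝ (Fin d))))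

theorem isCrossBody_cross (o : EuclideanSpace ℝ (Fin d)) (v : Fin d → EuclideanSpace ℝ (Fin d))
    (hv : LinearIndependent ℝ v) : IsCrossBody (cross o v) o :=
  ⟨v, fun _ => 1, hv, fun _ => one_pos, by simp [cross]⟩

/-- A cross-body needs `2 ^ d` hyperplanes. -/
theorem crossBody_lower (hd : 1 ≤ d) (K : Set (EuclideanSpace ℝ (Fin d)))
    (o : EuclideanSpace ℝ (Fin d)) (hK : IsCrossBody K o) (n : ℕ) (hn : Separable K o n) :
    2 ^ d ≤ n := by
  classical
  obtain ⟨v, t, hv, ht, hKe⟩ := hK
  obtain ⟨w, b, h⟩ := hn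
  have hcard : Fintype.card (Fin d) = Module.finrank ℝ (EuclideanSpace ℝ (Fin d)) := by simp
  let B : Module.Basis (Fin d) ℝ (EuclideanSpace ℝ (Fin d)) :=
    basisOfLinearIndependentOfCardEqFinrank' v hv hcard
  have hB : ∀ i, B i = v i := fun i => by simp [B]
  let z : Finset (Fin d) → Fin d → EuclideanSpace ℝ (Fin d) := fun S k =>
    if k ∈ S then o - t k • v k else o + v k
  let c : Finset (Fin d) → Fin d → ℝ := fun S k => if k ∈ S then -(t k)⁻¹ else 1
  let u : Finset (Fin d) → EuclideanSpace ℝ (Fin d) := fun S =>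
    (InnerProductSpace.toDual ℝ (EuclideanSpace ℝ (Fin d))).symm
      (LinearMap.toContinuousLinearMap (B.constr ℝ (c S)))
  have huv : ∀ S k, ⟪u S, v k⟫_ℝ = c S k := by
    intro S k
    have h1 : ⟪u S, v k⟫_ℝ = (LinearMap.toContinuousLinearMap (B.constr ℝ (c S))) (v k) :=
      InnerProductSpace.toDual_symm_apply
    rw [h1, ← hB k]
    show (B.constr ℝ (c S)) (B k) = c S k
    rw [Module.Basis.constr_basis]
  have hp : ∀ i, o + v i ∈ K := fun i => by
    rw [hKe]; exact subset_convexHull ℝ _ (Set.mem_iUnion.mpr ⟨i, by simp⟩)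
  have hm : ∀ i, o - t i • v i ∈ K := fun i => by
    rw [hKe]; exact subset_convexHull ℝ _ (Set.mem_iUnion.mpr ⟨i, by simp⟩)
  have hzK : ∀ S k, z S k ∈ K := by
    intro S k
    simp only [z]
    split_ifs
    · exact hm k
    · exact hp k
  have huz : ∀ S k, ⟪u S, z S k⟫_ℝ = ⟪u S, o⟫_ℝ + 1 := by
    intro S k
    simp only [z]
    by_cases hk : k ∈ S
    · simp only [hk, if_true]
      rw [inner_sub_right, inner_smul_right, huv]
      simp only [c, hk, if_true]
      have := (ht k).ne'
      field_simp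
      ring
    · simp only [hk, if_false]
      rw [inner_add_right, huv]
      simp only [c, hk, if_false]
  have hmax : ∀ S, ∀ y ∈ K, ⟪u S, y⟫_ℝ ≤ ⟪u S, o⟫_ℝ + 1 := by
    intro S y hy
    have hhalf : Convex ℝ {y : EuclideanSpace ℝ (Fin d) | ⟪u S, y⟫_ℝ ≤ ⟪u S, o⟫_ℝ + 1} :=
      convex_halfSpace_le ((innerSL ℝ (u S)).toLinearMap.isLinear) _
    rw [hKe] at hy
    refine convexHull_min ?_ hhalf hy
    intro y hy
    obtain ⟨i, hi⟩ := Set.mem_iUnion.mp hy
    have hti := ht i
    rcases hi with h' | h'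
    · rw [h']
      show ⟪u S, o + v i⟫_ℝ ≤ _
      rw [inner_add_right, huv]
      simp only [c]
      split_ifs
      · have := inv_pos.mpr hti
        linarith
      · linarith
    · rw [Set.mem_singleton_iff] at h'
      rw [h']
      show ⟪u S, o - t i • v i⟫_ℝ ≤ _
      rw [inner_sub_right, inner_smul_right, huv]
      simp only [c]
      split_ifs
      · have : t i * -(t i)⁻¹ = -1 := by field_simp
        rw [this]; linarith
      · linarith
  have key : ∀ S : Finset (Fin d), ∃ i, ⟪w i, o⟫_ℝ < b i ∧ ∀ k, b i < ⟪w i, z S k⟫_ℝ := by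
    intro S
    have hne : u S ≠ 0 := by
      intro h0
      have := huz S ⟨0, hd⟩
      rw [h0, inner_zero_left, inner_zero_left] at this
      norm_num at this
    obtain ⟨i, hi1, hi2⟩ := h (u S) (z S ⟨0, hd⟩) hne (hzK S _) (by
      intro y hy
      rw [huz]
      exact hmax S y hy)
    refine ⟨i, hi1, fun k => hi2 _ (hzK S k) ?_⟩
    rw [huz, huz]
  choose f hf1 hf2 using key
  have hinj : Function.Injective f := by
    intro S S' hSS
    ext k
    have h1 := hf2 S k
    have h2 := hf2 S' k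
    have h0 := hf1 S
    rw [← hSS] at h2
    have htk := ht k
    simp only [z] at h1 h2
    by_cases hk : k ∈ S <;> by_cases hk' : k ∈ S'
    · simp [hk, hk']
    · exfalso
      simp only [hk, hk', if_true, if_false] at h1 h2
      rw [inner_sub_right, inner_smul_right] at h1
      rw [inner_add_right] at h2
      have h3 : 0 < ⟪w (f S), v k⟫_ℝ := by linarith
      have h4 : t k * ⟪w (f S), v k⟫_ℝ < 0 := by linarith
      have := mul_pos htk h3
      linarith
    · exfalso
      simp only [hk, hk', if_true, if_false] at h1 h2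
      rw [inner_sub_right, inner_smul_right] at h2
      rw [inner_add_right] at h1
      have h3 : 0 < ⟪w (f S), v k⟫_ℝ := by linarith
      have h4 : t k * ⟪w (f S), v k⟫_ℝ < 0 := by linarith
      have := mul_pos htk h3
      linarith
    · simp [hk, hk']
  have := Fintype.card_le_of_injective f hinj
  simpa using this

/-- The point which is added to the standard cross-polytope. -/
noncomputable def qpt (d : ℕ) (η : ℝ) : EuclideanSpace ℝ (Fin d) :=
  WithLp.toLp 2 fun _ => (1 + η) / d

/-- The generators. -/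
def gens (d : ℕ) (Z : Set (EuclideanSpace ℝ (Fin d))) : Set (EuclideanSpace ℝ (Fin d)) :=
  (⋃ i, ({EuclideanSpace.single i (1 : ℝ), -EuclideanSpace.single i (1 : ℝ)} :
    Set (EuclideanSpace ℝ (Fin d)))) ∪ Z

theorem gens_finite (Z : Set (EuclideanSpace ℝ (Fin d))) (hZ : Z.Finite) :
    (gens d Z).Finite :=
  (Set.finite_iUnion fun _ => (Set.finite_singleton _).insert _).union hZ

/-- The conditions for the standard frame. -/
theorem gens_frame (hd : 2 ≤ d) (η : ℝ) (h0 : 0 < η) (h1 : η ≤ 1 / 2)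
    (Z : Set (EuclideanSpace ℝ (Fin d))) (hZ : Z ⊆ {qpt d η, -qpt d η}) :
    ∀ x ∈ convexHull ℝ (gens d Z), (∀ i, |x i| ≤ 1) ∧ ∑ i, |x i| ≤ 1 + η := by
  have hcv : Convex ℝ {x : EuclideanSpace ℝ (Fin d) | (∀ i, |x i| ≤ 1) ∧ ∑ i, |x i| ≤ 1 + η} := by
    intro x hx y hy a b ha hb hab
    have hc : ∀ i, |(a • x + b • y) i| ≤ a * |x i| + b * |y i| := by
      intro i
      simp only [PiLp.add_apply, PiLp.smul_apply, smul_eq_mul]
      refine le_trans (abs_add_le _ _) ?_
      rw [abs_mul, abs_mul, abs_of_nonneg ha, abs_of_nonneg hb]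
    refine ⟨fun i => ?_, ?_⟩
    · refine le_trans (hc i) ?_
      nlinarith [hx.1 i, hy.1 i, mul_le_mul_of_nonneg_left (hx.1 i) ha,
        mul_le_mul_of_nonneg_left (hy.1 i) hb]
    · refine le_trans (Finset.sum_le_sum fun i _ => hc i) ?_
      rw [Finset.sum_add_distrib, ← Finset.mul_sum, ← Finset.mul_sum]
      have e1 := mul_le_mul_of_nonneg_left hx.2 ha
      have e2 := mul_le_mul_of_nonneg_left hy.2 hb
      have e3 : a * (1 + η) + b * (1 + η) = 1 + η := by rw [← add_mul, hab, one_mul]
      linarith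
  have hdpos : (0 : ℝ) < d := by
    have : 0 < d := by omega
    exact_mod_cast this
  have hd2 : (2 : ℝ) ≤ d := by exact_mod_cast hd
  have hq : (∀ i, |qpt d η i| ≤ 1) ∧ ∑ i, |qpt d η i| ≤ 1 + η := by
    have e : ∀ i, qpt d η i = (1 + η) / d := fun i => rfl
    have e2 : |(1 + η) / (d : ℝ)| = (1 + η) / d := abs_of_pos (by positivity)
    simp only [e, e2]
    refine ⟨fun _ => ?_, ?_⟩
    · rw [div_le_one hdpos]; linarith
    · rw [Finset.sum_const, Finset.card_univ, Fintype.card_fin, nsmul_eq_mul,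
        mul_div_cancel₀ _ hdpos.ne']
  have hsingle : ∀ i : Fin d, (∀ j, |EuclideanSpace.single i (1 : ℝ) j| ≤ 1) ∧
      ∑ j, |EuclideanSpace.single i (1 : ℝ) j| ≤ 1 + η := by
    intro i
    refine ⟨fun j => ?_, ?_⟩
    · by_cases h : j = i
      · subst h; simp
      · simp [h]
    · rw [Finset.sum_eq_single i]
      · simp; exact h0.le
      · intro j _ hj; simp [hj]
      · intro h; exact absurd (mem_univ i) h
  intro x hx
  refine convexHull_min ?_ hcv hx
  rintro x (hx | hx)
  · obtain ⟨i, hi⟩ := Set.mem_iUnion.mp hx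
    rcases hi with h | h
    · rw [h]; exact hsingle i
    · rw [Set.mem_singleton_iff] at h
      rw [h]
      simpa using hsingle i
  · rcases hZ hx with h | h
    · rw [h]; exact hq
    · rw [Set.mem_singleton_iff] at h
      rw [h]
      simpa using hq

/-- The functionals with coefficients `± 1`. -/
theorem gens_le (hd : 3 ≤ d) (η : ℝ) (h0 : 0 < η) (h1 : η ≤ 1 / d)
    (Z : Set (EuclideanSpace ℝ (Fin d))) (hZ : Z ⊆ {qpt d η, -qpt d η})
    (S : Finset (Fin d)) (hS : S.Nonempty) (hS2 : Sᶜ.Nonempty ∨ Z ⊆ {qpt d η}) :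
    ∀ x ∈ convexHull ℝ (gens d Z), ∑ i, (if i ∈ S then (-1 : ℝ) else 1) * x i ≤ 1 := by
  classical
  have hdpos : (0 : ℝ) < d := by
    have : 0 < d := by omega
    exact_mod_cast this
  have hd3 : (3 : ℝ) ≤ d := by exact_mod_cast hd
  have hlin : IsLinearMap ℝ fun x : EuclideanSpace ℝ (Fin d) =>
      ∑ i, (if i ∈ S then (-1 : ℝ) else 1) * x i := by
    constructor
    · intro x y
      simp only [PiLp.add_apply, mul_add, Finset.sum_add_distrib]
    · intro a x
      simp only [PiLp.smul_apply, smul_eq_mul, Finset.mul_sum]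
      apply Finset.sum_congr rfl
      intro i _
      ring
  have hhalf := convex_halfSpace_le hlin 1
  have hsum : ∑ i, (if i ∈ S then (-1 : ℝ) else 1) = d - 2 * S.card := by
    have : ∀ i, (if i ∈ S then (-1 : ℝ) else 1) = 1 - 2 * (if i ∈ S then 1 else 0) := by
      intro i; split_ifs <;> norm_num
    simp only [this]
    rw [Finset.sum_sub_distrib, ← Finset.mul_sum]
    simp
  have hqv : ∑ i, (if i ∈ S then (-1 : ℝ) else 1) * qpt d η i = (d - 2 * S.card) * ((1 + η) / d) := by
    rw [← hsum, Finset.sum_mul]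
    rfl
  have hSc : (1 : ℝ) ≤ S.card := by exact_mod_cast Finset.card_pos.mpr hS
  have hηd : η * d ≤ 1 := by
    rw [le_div_iff₀ hdpos] at h1; exact h1
  have hpos : 0 < (1 + η) / (d : ℝ) := by positivity
  have hmul : (1 + η) / (d : ℝ) * d = 1 + η := div_mul_cancel₀ _ hdpos.ne'
  have hsmall : ((d : ℝ) - 2) * ((1 + η) / d) ≤ 1 := by
    have : ((d : ℝ) - 2) * ((1 + η) / d) = (1 + η) - 2 * ((1 + η) / d) := by
      rw [sub_mul, mul_comm (d : ℝ), hmul]
    rw [this]
    have h2 : η ≤ 2 * ((1 + η) / d) := by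
      rw [← mul_div_assoc, le_div_iff₀ hdpos]; linarith
    linarith
  intro x hx
  refine convexHull_min ?_ hhalf hx
  rintro x (hx | hx)
  · obtain ⟨k, hk⟩ := Set.mem_iUnion.mp hx
    have e : ∑ i, (if i ∈ S then (-1 : ℝ) else 1) * EuclideanSpace.single k (1 : ℝ) i =
        if k ∈ S then -1 else 1 := by
      rw [Finset.sum_eq_single k]
      · simp
      · intro j _ hj; simp [hj]
      · intro h; exact absurd (mem_univ k) h
    rcases hk with h | h
    · rw [h]
      show ∑ i, (if i ∈ S then (-1 : ℝ) else 1) * EuclideanSpace.single k (1 : ℝ) i ≤ 1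
      rw [e]; split_ifs <;> norm_num
    · rw [Set.mem_singleton_iff] at h
      rw [h]
      show ∑ i, (if i ∈ S then (-1 : ℝ) else 1) * (-EuclideanSpace.single k (1 : ℝ)) i ≤ 1
      have e2 : ∑ i, (if i ∈ S then (-1 : ℝ) else 1) * (-EuclideanSpace.single k (1 : ℝ)) i =
          -(if k ∈ S then -1 else 1) := by
        rw [← e, ← Finset.sum_neg_distrib]
        apply Finset.sum_congr rfl
        intro i _
        simp
      rw [e2]; split_ifs <;> norm_num
  · have hq1 : ∑ i, (if i ∈ S then (-1 : ℝ) else 1) * qpt d η i ≤ 1 := by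
      rw [hqv]
      refine le_trans ?_ hsmall
      exact mul_le_mul_of_nonneg_right (by linarith) hpos.le
    rcases hS2 with hS2 | hS2
    · rcases hZ hx with h | h
      · rw [h]; exact hq1
      · rw [Set.mem_singleton_iff] at h
        rw [h]
        show ∑ i, (if i ∈ S then (-1 : ℝ) else 1) * (-qpt d η) i ≤ 1
        have e2 : ∑ i, (if i ∈ S then (-1 : ℝ) else 1) * (-qpt d η) i =
            -∑ i, (if i ∈ S then (-1 : ℝ) else 1) * qpt d η i := by
          rw [← Finset.sum_neg_distrib]
          apply Finset.sum_congr rfl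
          intro i _
          simp
        rw [e2, hqv, ← neg_mul]
        refine le_trans ?_ hsmall
        apply mul_le_mul_of_nonneg_right _ hpos.le
        have h3 : S.card + Sᶜ.card = d := by
          rw [Finset.card_add_card_compl, Fintype.card_fin]
        have h4 : (S.card : ℝ) + (Sᶜ.card : ℝ) = d := by exact_mod_cast h3
        have h5 : (1 : ℝ) ≤ Sᶜ.card := by exact_mod_cast Finset.card_pos.mpr hS2
        linarith
    · have := hS2 hx
      rw [Set.mem_singleton_iff] at this
      rw [this]; exact hq1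

theorem single_independent :
    LinearIndependent ℝ (fun i : Fin d => EuclideanSpace.single i (1 : ℝ)) := by
  have h := (EuclideanSpace.basisFun (Fin d) ℝ).toBasis.linearIndependent
  have e : (fun i : Fin d => EuclideanSpace.single i (1 : ℝ)) =
      (EuclideanSpace.basisFun (Fin d) ℝ).toBasis := by
    funext i
    simp
  rw [e]
  exact h

theorem sum_single (x : EuclideanSpace ℝ (Fin d)) :
    x = 0 + ∑ i, x i • EuclideanSpace.single i (1 : ℝ) := by
  rw [zero_add]
  have h := (EuclideanSpace.basisFun (Fin d) ℝ).sum_repr x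
  conv_lhs => rw [← h]
  apply Finset.sum_congr rfl
  intro i _
  simp

/-- All properties of the examples. -/
theorem example_props (hd : 3 ≤ d) (η : ℝ) (h0 : 0 < η) (h1 : η ≤ 1 / d)
    (Z : Set (EuclideanSpace ℝ (Fin d))) (hZ : Z ⊆ {qpt d η, -qpt d η}) (hq : qpt d η ∈ Z) :
    Convex ℝ (convexHull ℝ (gens d Z)) ∧ IsCompact (convexHull ℝ (gens d Z)) ∧
      (∀ i, EuclideanSpace.single i (1 : ℝ) ∈ convexHull ℝ (gens d Z) ∧
        -EuclideanSpace.single i (1 : ℝ) ∈ convexHull ℝ (gens d Z)) ∧
      (∀ x ∈ convexHull ℝ (gens d Z), (∀ i, |x i| ≤ 1) ∧ ∑ i, |x i| ≤ 1 + η) ∧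
      ¬ IsCrossBody (convexHull ℝ (gens d Z)) 0 := by
  have hdpos : (0 : ℝ) < d := by
    have : 0 < d := by omega
    exact_mod_cast this
  have hd3 : (3 : ℝ) ≤ d := by exact_mod_cast hd
  have hη : η ≤ 1 / 2 := le_trans h1 (by
    apply one_div_le_one_div_of_le (by norm_num); linarith)
  have hfin : (gens d Z).Finite := gens_finite Z (((Set.finite_singleton _).insert _).subset hZ)
  have hcv : Convex ℝ (convexHull ℝ (gens d Z)) := convex_convexHull ℝ _
  have hcp : IsCompact (convexHull ℝ (gens d Z)) := Set.Finite.isCompact_convexHull (𝕜 := ℝ) hfin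
  have hmem : ∀ i, EuclideanSpace.single i (1 : ℝ) ∈ convexHull ℝ (gens d Z) ∧
        -EuclideanSpace.single i (1 : ℝ) ∈ convexHull ℝ (gens d Z) := by
    intro i
    constructor
    · exact subset_convexHull ℝ _ (Or.inl (Set.mem_iUnion.mpr ⟨i, by simp⟩))
    · exact subset_convexHull ℝ _ (Or.inl (Set.mem_iUnion.mpr ⟨i, by simp⟩))
  have hfr := gens_frame (by omega : 2 ≤ d) η h0 hη Z hZ
  refine ⟨hcv, hcp, hmem, hfr, ?_⟩
  intro hcross
  have hF := frame (by omega : 1 ≤ d) _ hcv hcp 0 (fun i => EuclideanSpace.single i (1 : ℝ))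
    single_independent (fun i => by simpa using hmem i) (fun x hx =>
      ⟨fun i => x i, (hfr x hx).1, le_trans (hfr x hx).2 (by linarith), sum_single x⟩)
  rcases hF.2.1 with h | h
  · -- `q` is not in the cross-polytope
    have hqK : qpt d η ∈ convexHull ℝ (gens d Z) := subset_convexHull ℝ _ (Or.inr hq)
    rw [h] at hqK
    have hlin : IsLinearMap ℝ fun x : EuclideanSpace ℝ (Fin d) => ∑ i, x i := by
      constructor
      · intro x y
        simp only [PiLp.add_apply, Finset.sum_add_distrib]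
      · intro a x
        simp only [PiLp.smul_apply, smul_eq_mul, Finset.mul_sum]
    have h2 : cross 0 (fun i => EuclideanSpace.single i (1 : ℝ)) ⊆
        {x : EuclideanSpace ℝ (Fin d) | ∑ i, x i ≤ 1} := by
      apply convexHull_min _ (convex_halfSpace_le hlin 1)
      intro x hx
      obtain ⟨i, hi⟩ := Set.mem_iUnion.mp hx
      have e : ∑ j, EuclideanSpace.single i (1 : ℝ) j = 1 := by
        rw [Finset.sum_eq_single i]
        · simp
        · intro j _ hj; simp [hj]
        · intro h; exact absurd (mem_univ i) h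
      rcases hi with h' | h'
      · rw [h']
        show ∑ j, (0 + EuclideanSpace.single i (1 : ℝ)) j ≤ 1
        rw [zero_add, e]
      · rw [Set.mem_singleton_iff] at h'
        rw [h']
        show ∑ j, (0 - EuclideanSpace.single i (1 : ℝ)) j ≤ 1
        rw [zero_sub]
        have : ∑ j, (-EuclideanSpace.single i (1 : ℝ)) j =
            -∑ j, EuclideanSpace.single i (1 : ℝ) j := by
          rw [← Finset.sum_neg_distrib]
          rfl
        rw [this, e]; norm_num
    have h3 := h2 hqK
    have h4 : ∑ i, qpt d η i = 1 + η := by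
      show ∑ _i : Fin d, (1 + η) / (d : ℝ) = 1 + η
      rw [Finset.sum_const, Finset.card_univ, Fintype.card_fin, nsmul_eq_mul,
        mul_div_cancel₀ _ hdpos.ne']
    have h5 : ∑ i, qpt d η i ≤ 1 := h3
    rw [h4] at h5
    linarith
  · have := crossBody_lower (by omega : 1 ≤ d) _ 0 hcross _ h
    have h2 : 0 < 2 ^ d := by positivity
    omega

end Pool.Agent.H99.Near
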