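import Pool.Agent.H99.AbsMain
import Pool.Agent.H99.NearSharp

/-!
# Pairs of a convex body and a point whose polar body is close to a parallelotope
-/

set_option autoImplicit false

open Finset Matrix
open scoped InnerProductSpace

namespace Pool.Agent.H99.Abs

variable {d : ℕ}

open Near (Separable IsCrossBody)

/-- The dual basis. -/
theorem exists_dual (v : Fin d → EuclideanSpace ℝ (Fin d)) (hv : LinearIndependent ℝ v) :
    ∃ m : Fin d → EuclideanSpace ℝ (Fin d), LinearIndependent ℝ m ∧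
      (∀ i j, ⟪m i, v j⟫_ℝ = if i = j then 1 else 0) ∧ (∀ x, x = ∑ i, ⟪m i, x⟫_ℝ • v i) ∧
      ∀ x, x = ∑ i, ⟪v i, x⟫_ℝ • m i := by
  classical
  have hcard : Fintype.card (Fin d) = Module.finrank ℝ (EuclideanSpace ℝ (Fin d)) := by simp
  let B : Module.Basis (Fin d) ℝ (EuclideanSpace ℝ (Fin d)) :=
    basisOfLinearIndependentOfCardEqFinrank' v hv hcard
  have hB : ∀ i, B i = v i := fun i => by simp [B]
  let m : Fin d → EuclideanSpace ℝ (Fin d) := fun i =>
    (InnerProductSpace.toDual ℝ (EuclideanSpace ℝ (Fin d))).symm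
      (LinearMap.toContinuousLinearMap (B.coord i))
  have hm : ∀ i x, ⟪m i, x⟫_ℝ = B.repr x i := fun i x =>
    InnerProductSpace.toDual_symm_apply
  have hmv : ∀ i j, ⟪m i, v j⟫_ℝ = if i = j then 1 else 0 := by
    intro i j
    rw [hm, ← hB j, B.repr_self, Finsupp.single_apply]
    simp only [eq_comm]
  have hx : ∀ x, x = ∑ i, ⟪m i, x⟫_ℝ • v i := by
    intro x
    have := B.sum_repr x
    simp only [hB] at this
    simp only [hm]
    exact this.symm
  have hmv' : ∀ (c : Fin d → ℝ) j, ⟪∑ i, c i • m i, v j⟫_ℝ = c j := by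
    intro c j
    rw [sum_inner, Finset.sum_eq_single j]
    · rw [real_inner_smul_left, hmv, if_pos rfl, mul_one]
    · intro i _ hij
      rw [real_inner_smul_left, hmv, if_neg hij, mul_zero]
    · intro h; exact absurd (mem_univ j) h
  refine ⟨m, ?_, hmv, hx, ?_⟩
  · rw [Fintype.linearIndependent_iff]
    intro c hc i
    have := hmv' c i
    rw [hc, inner_zero_left] at this
    exact this.symm
  · intro x
    have h1 : ∀ y, ⟪x - ∑ i, ⟪v i, x⟫_ℝ • m i, y⟫_ℝ = 0 := by
      intro y
      rw [hx y, inner_sum]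
      apply Finset.sum_eq_zero
      intro j _
      rw [real_inner_smul_right, inner_sub_left, hmv', real_inner_comm (v j) x, sub_self, mul_zero]
    have h2 := h1 (x - ∑ i, ⟪v i, x⟫_ℝ • m i)
    rw [inner_self_eq_zero, sub_eq_zero] at h2
    exact h2

/-- If the polar body of `K` with respect to `o` is a parallelotope then `K` is a cross-body
centred at `o`. -/
theorem crossBody_of_polar (hd : 1 ≤ d) (K : Set (EuclideanSpace ℝ (Fin d))) (hKc : IsCompact K)
    (hKcv : Convex ℝ K) (o : EuclideanSpace ℝ (Fin d)) (m : Fin d → EuclideanSpace ℝ (Fin d))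
    (hm : LinearIndependent ℝ m) (ζ : Fin d → ℝ)
    (hP : ∀ x, (∀ y ∈ K, ⟪x, y - o⟫_ℝ ≤ 1) ↔ ∀ i, |⟪m i, x⟫_ℝ - ζ i| ≤ 1) :
    IsCrossBody K o := by
  classical
  obtain ⟨g, -, hmg, hxg, hxm⟩ := exists_dual m hm
  have hm0 : ∀ i, m i ≠ 0 := fun i => hm.ne_zero i
  have hmpos : ∀ i, 0 < ⟪m i, m i⟫_ℝ := fun i => real_inner_self_pos.mpr (hm0 i)
  -- `K` is bounded
  obtain ⟨R, hR0, hR⟩ : ∃ R : ℝ, 0 < R ∧ ∀ y ∈ K, ‖y - o‖ ≤ R := by
    obtain ⟨R, hR⟩ := hKc.isBounded.exists_norm_le
    refine ⟨|R| + ‖o‖ + 1, by positivity, fun y hy => ?_⟩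
    have h1 := norm_sub_le y o
    have h2 := hR y hy
    have h3 := le_abs_self R
    linarith
  have hζ : ∀ i, |ζ i| < 1 := by
    intro i
    have key : ∀ s : ℝ, |s| ≤ 1 / (R * ‖m i‖) → |s * ⟪m i, m i⟫_ℝ - ζ i| ≤ 1 := by
      intro s hs
      have h1 := (hP (s • m i)).mp (by
        intro y hy
        have h2 := real_inner_le_norm (s • m i) (y - o)
        rw [norm_smul, Real.norm_eq_abs] at h2
        have hmi : 0 < ‖m i‖ := norm_pos_iff.mpr (hm0 i)
        have h3 : |s| * ‖m i‖ * ‖y - o‖ ≤ 1 / (R * ‖m i‖) * ‖m i‖ * R := by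
          apply mul_le_mul _ (hR y hy) (norm_nonneg _) (by positivity)
          exact mul_le_mul_of_nonneg_right hs hmi.le
        have h4 : 1 / (R * ‖m i‖) * ‖m i‖ * R = 1 := by field_simp
        linarith) i
      rwa [real_inner_smul_right] at h1
    have hmi : 0 < ‖m i‖ := norm_pos_iff.mpr (hm0 i)
    have hs : 0 < 1 / (R * ‖m i‖) := by positivity
    have h1 := key (1 / (R * ‖m i‖)) (by rw [abs_of_pos hs])
    have h2 := key (-(1 / (R * ‖m i‖))) (by rw [abs_neg, abs_of_pos hs])
    have h3 : 0 < 1 / (R * ‖m i‖) * ⟪m i, m i⟫_ℝ := mul_pos hs (hmpos i)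
    rw [abs_le] at h1 h2
    rw [abs_lt]
    constructor <;> linarith
  have ha : ∀ i, 0 < 1 + ζ i := fun i => by linarith [(abs_lt.mp (hζ i)).1]
  have hb : ∀ i, 0 < 1 - ζ i := fun i => by linarith [(abs_lt.mp (hζ i)).2]
  -- `K` is not empty
  have hKne : K.Nonempty := by
    by_contra hcon
    rw [Set.not_nonempty_iff_eq_empty] at hcon
    let i : Fin d := ⟨0, hd⟩
    have h1 := (hP ((3 / ⟪m i, m i⟫_ℝ) • m i)).mp (by intro y hy; rw [hcon] at hy; exact hy.elim) i
    rw [real_inner_smul_right, div_mul_cancel₀ _ (hmpos i).ne'] at h1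
    have h2 := (abs_le.mp h1).2
    have h3 := (abs_lt.mp (hζ i)).2
    linarith
  -- bipolar theorem
  have hbip : ∀ y, (∀ x, (∀ i, |⟪m i, x⟫_ℝ - ζ i| ≤ 1) → ⟪x, y - o⟫_ℝ ≤ 1) → y ∈ K := by
    intro y hy
    by_contra hcon
    obtain ⟨f, α, h1, h2⟩ := geometric_hahn_banach_closed_point hKcv hKc.isClosed hcon
    let a := (InnerProductSpace.toDual ℝ (EuclideanSpace ℝ (Fin d))).symm f
    have hf : ∀ x, f x = ⟪a, x⟫_ℝ := fun x => (InnerProductSpace.toDual_symm_apply).symm
    have h1' : ∀ k ∈ K, ⟪a, k - o⟫_ℝ < α - ⟪a, o⟫_ℝ := by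
      intro k hk
      have := h1 k hk
      rw [hf] at this
      rw [inner_sub_right]
      linarith
    have h2' : α - ⟪a, o⟫_ℝ < ⟪a, y - o⟫_ℝ := by
      rw [hf] at h2
      rw [inner_sub_right]
      linarith
    set h := α - ⟪a, o⟫_ℝ with hh
    by_cases hpos : 0 < h
    · have h3 := hy (h⁻¹ • a) ((hP _).mp fun k hk => by
        rw [real_inner_smul_left]
        have := mul_le_mul_of_nonneg_left (h1' k hk).le (inv_nonneg.mpr hpos.le)
        rwa [inv_mul_cancel₀ hpos.ne'] at this)
      rw [real_inner_smul_left] at h3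
      have h4 := mul_lt_mul_of_pos_left h2' (inv_pos.mpr hpos)
      rw [inv_mul_cancel₀ hpos.ne'] at h4
      linarith
    · push Not at hpos
      have hzero : ∀ i, ⟪m i, a⟫_ℝ = 0 := by
        intro i
        by_contra hne
        have key : ∀ s : ℝ, 0 ≤ s → |s * ⟪m i, a⟫_ℝ - ζ i| ≤ 1 := by
          intro s hs
          have h3 := (hP (s • a)).mp (fun k hk => by
            rw [real_inner_smul_left]
            have := mul_le_mul_of_nonneg_left (h1' k hk).le hs
            have h4 : s * h ≤ 0 := mul_nonpos_of_nonneg_of_nonpos hs hpos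
            linarith) i
          rwa [real_inner_smul_right] at h3
        have h3 := key (3 / |⟪m i, a⟫_ℝ|) (by positivity)
        have h4 : |3 / |⟪m i, a⟫_ℝ| * ⟪m i, a⟫_ℝ| = 3 := by
          rw [abs_mul, abs_div, abs_abs, div_mul_cancel₀ _ (abs_ne_zero.mpr hne)]
          norm_num
        have h5 := abs_sub_abs_le_abs_sub (3 / |⟪m i, a⟫_ℝ| * ⟪m i, a⟫_ℝ) (ζ i)
        have h6 := hζ i
        linarith
      have ha0 : a = 0 := by
        have := hxg a
        -- `a = ∑ ⟪g i, a⟫ m i` and `a ⟂ m i`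
        have h3 : ⟪a, a⟫_ℝ = 0 := by
          conv_lhs => rw [this]
          rw [sum_inner]
          apply Finset.sum_eq_zero
          intro i _
          rw [real_inner_smul_left, ← this, hzero i, mul_zero]
        exact inner_self_eq_zero.mp h3
      obtain ⟨k, hk⟩ := hKne
      have h3 := h1' k hk
      rw [ha0, inner_zero_left] at h3 h2'
      linarith
  -- the points
  refine ⟨fun i => (1 + ζ i)⁻¹ • m i, fun i => (1 + ζ i) / (1 - ζ i), ?_, fun i => div_pos (ha i) (hb i),
    ?_⟩
  · have := hm.units_smul fun i => Units.mk0 ((1 + ζ i)⁻¹) (inv_ne_zero (ha i).ne')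
    exact this
  have hsm : ∀ i, ((1 + ζ i) / (1 - ζ i)) • (1 + ζ i)⁻¹ • m i = (1 - ζ i)⁻¹ • m i := by
    intro i
    rw [smul_smul]
    congr 1
    have := (ha i).ne'
    field_simp
  set C := ⋃ i, ({o + (1 + ζ i)⁻¹ • m i, o - ((1 + ζ i) / (1 - ζ i)) • (1 + ζ i)⁻¹ • m i} :
    Set (EuclideanSpace ℝ (Fin d))) with hC
  have hCp : ∀ i, o + (1 + ζ i)⁻¹ • m i ∈ C := fun i => Set.mem_iUnion.mpr ⟨i, Or.inl rfl⟩
  have hCm : ∀ i, o - (1 - ζ i)⁻¹ • m i ∈ C := fun i => Set.mem_iUnion.mpr ⟨i, Or.inr (by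
    rw [Set.mem_singleton_iff, hsm])⟩
  apply Set.Subset.antisymm
  · intro y hy
    set lam : Fin d → ℝ := fun i => ⟪g i, y - o⟫_ℝ with hlam
    have hyo : y - o = ∑ i, lam i • m i := hxg (y - o)
    let x := ∑ i, (if 0 ≤ lam i then 1 + ζ i else -(1 - ζ i)) • g i
    have hmx : ∀ i, ⟪m i, x⟫_ℝ = if 0 ≤ lam i then 1 + ζ i else -(1 - ζ i) := by
      intro i
      simp only [x]
      rw [inner_sum, Finset.sum_eq_single i]
      · rw [real_inner_smul_right, real_inner_comm, hmg, if_pos rfl, mul_one]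
      · intro j _ hj
        rw [real_inner_smul_right, real_inner_comm, hmg, if_neg hj, mul_zero]
      · intro h; exact absurd (mem_univ i) h
    have hx := (hP x).mpr (by
      intro i
      rw [hmx]
      split_ifs
      · rw [add_sub_cancel_right, abs_one]
      · have : -(1 - ζ i) - ζ i = -1 := by ring
        rw [this, abs_neg, abs_one]) y hy
    let μ : Fin d → ℝ := fun i => if 0 ≤ lam i then lam i * (1 + ζ i) else -(lam i) * (1 - ζ i)
    have hμ0 : ∀ i, 0 ≤ μ i := by
      intro i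
      simp only [μ]
      split_ifs with h
      · exact mul_nonneg h (ha i).le
      · push Not at h
        exact mul_nonneg (by linarith) (hb i).le
    have hμ1 : ∑ i, μ i ≤ 1 := by
      have e : ⟪x, y - o⟫_ℝ = ∑ i, μ i := by
        rw [hyo, inner_sum]
        apply Finset.sum_congr rfl
        intro i _
        rw [real_inner_smul_right, real_inner_comm, hmx]
        simp only [μ]
        split_ifs <;> ring
      rw [← e]; exact hx
    have hcv : Convex ℝ (convexHull ℝ C) := convex_convexHull ℝ _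
    have ho : o ∈ convexHull ℝ C := by
      let i : Fin d := ⟨0, hd⟩
      have h := hcv (subset_convexHull ℝ _ (hCp i)) (subset_convexHull ℝ _ (hCm i))
        (by have := ha i; linarith : 0 ≤ (1 + ζ i) / 2) (by have := hb i; linarith : 0 ≤ (1 - ζ i) / 2)
        (by ring)
      have e : ((1 + ζ i) / 2) • (o + (1 + ζ i)⁻¹ • m i) + ((1 - ζ i) / 2) • (o - (1 - ζ i)⁻¹ • m i) =
          o := by
        rw [smul_add, smul_sub, smul_smul, smul_smul]
        have e1 : (1 + ζ i) / 2 * (1 + ζ i)⁻¹ = 1 / 2 := by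
          have := (ha i).ne'
          field_simp
        have e2 : (1 - ζ i) / 2 * (1 - ζ i)⁻¹ = 1 / 2 := by
          have := (hb i).ne'
          field_simp
        rw [e1, e2]
        module
      rwa [e] at h
    let zz : Option (Fin d) → EuclideanSpace ℝ (Fin d) := fun k =>
      k.elim o fun i => if 0 ≤ lam i then o + (1 + ζ i)⁻¹ • m i else o - (1 - ζ i)⁻¹ • m i
    let ww : Option (Fin d) → ℝ := fun k => k.elim (1 - ∑ i, μ i) fun i => μ i
    have hz : ∀ k ∈ (univ : Finset (Option (Fin d))), zz k ∈ convexHull ℝ C := by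
      intro k _
      cases k with
      | none => exact ho
      | some i =>
        show (if 0 ≤ lam i then o + (1 + ζ i)⁻¹ • m i else o - (1 - ζ i)⁻¹ • m i) ∈ _
        split_ifs
        · exact subset_convexHull ℝ _ (hCp i)
        · exact subset_convexHull ℝ _ (hCm i)
    have hw : ∀ k ∈ (univ : Finset (Option (Fin d))), 0 ≤ ww k := by
      intro k _
      cases k with
      | none => show 0 ≤ 1 - ∑ i, μ i; linarith
      | some i => exact hμ0 i
    have hw1 : ∑ k, ww k = 1 := by
      rw [Fintype.sum_option]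
      show 1 - ∑ i, μ i + ∑ i, μ i = 1
      ring
    have h := hcv.sum_mem hw hw1 hz
    rw [Fintype.sum_option] at h
    have e : ww none • zz none + ∑ i, ww (some i) • zz (some i) = y := by
      have e1 : ∀ i, ww (some i) • zz (some i) = μ i • o + lam i • m i := by
        intro i
        show μ i • (if 0 ≤ lam i then o + (1 + ζ i)⁻¹ • m i else o - (1 - ζ i)⁻¹ • m i) = _
        simp only [μ]
        split_ifs with h
        · rw [smul_add, smul_smul]
          congr 2
          have := (ha i).ne'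
          field_simp
        · rw [smul_sub, smul_smul, sub_eq_add_neg, ← neg_smul]
          congr 2
          have := (hb i).ne'
          field_simp
      simp only [e1]
      rw [Finset.sum_add_distrib, ← Finset.sum_smul, ← hyo]
      show (1 - ∑ i, μ i) • o + _ = _
      rw [sub_smul, one_smul]
      abel
    rwa [e] at h
  · refine convexHull_min ?_ hKcv
    intro y hy
    obtain ⟨i, hi⟩ := Set.mem_iUnion.mp hy
    rcases hi with hi | hi
    · rw [hi]
      apply hbip
      intro x hx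
      rw [add_sub_cancel_left, real_inner_smul_right, real_inner_comm]
      have h1 := (abs_le.mp (hx i)).2
      have h2 := mul_le_mul_of_nonneg_left (by linarith : ⟪m i, x⟫_ℝ ≤ 1 + ζ i)
        (inv_nonneg.mpr (ha i).le)
      rwa [inv_mul_cancel₀ (ha i).ne'] at h2
    · rw [Set.mem_singleton_iff, hsm] at hi
      rw [hi]
      apply hbip
      intro x hx
      have e : o - (1 - ζ i)⁻¹ • m i - o = -((1 - ζ i)⁻¹ • m i) := by abel
      rw [e, inner_neg_right, real_inner_smul_right, real_inner_comm]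
      have h1 := (abs_le.mp (hx i)).1
      have h2 := mul_le_mul_of_nonneg_left (by linarith : -⟪m i, x⟫_ℝ ≤ 1 - ζ i)
        (inv_nonneg.mpr (hb i).le)
      rw [inv_mul_cancel₀ (hb i).ne'] at h2
      linarith

end Pool.Agent.H99.Abs
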