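import Pool.Agent.H99.AbsPairs

/-!
# Pairs of a convex body and a point whose polar body is close to a parallelotope: the theorem
-/

set_option autoImplicit false

open Finset Matrix
open scoped InnerProductSpace

namespace Pool.Agent.H99.Abs

variable {d : ℕ}

open Near (Separable IsCrossBody)

/-- The theorem in terms of the polar body. -/
theorem polar_pairs (hd : 1 ≤ d) (K : Set (EuclideanSpace ℝ (Fin d))) (hKc : IsCompact K)
    (hKcv : Convex ℝ K) (o w : EuclideanSpace ℝ (Fin d)) (v : Fin d → EuclideanSpace ℝ (Fin d))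
    (hv : LinearIndependent ℝ v)
    (hin : ∀ t : Fin d → ℝ, (∀ i, |t i| ≤ 1) → ∀ y ∈ K, ⟪w + ∑ i, t i • v i, y - o⟫_ℝ ≤ 1)
    (hout : ∀ x, (∀ y ∈ K, ⟪x, y - o⟫_ℝ ≤ 1) →
      ∃ t : Fin d → ℝ, (∀ i, |t i| ≤ 109 / 100) ∧ x = w + ∑ i, t i • v i) :
    Separable K o (2 ^ d) ∧ (IsCrossBody K o ∨ Separable K o (2 ^ d - 1)) := by
  classical
  obtain ⟨m, hmLI, hmv, hxv, hxm⟩ := exists_dual v hv
  have hmsum : ∀ (c : Fin d → ℝ) i, ⟪m i, ∑ j, c j • v j⟫_ℝ = c i := by
    intro c i
    rw [inner_sum, Finset.sum_eq_single i]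
    · rw [real_inner_smul_right, hmv, if_pos rfl, mul_one]
    · intro j _ hj
      rw [real_inner_smul_right, hmv, if_neg (Ne.symm hj), mul_zero]
    · intro h; exact absurd (mem_univ i) h
  -- the parametrisation
  let φ : (Fin d → ℝ) → EuclideanSpace ℝ (Fin d) := fun t => w + ∑ i, (109 / 100 * t i) • v i
  have hφc : Continuous φ := by
    refine continuous_const.add (continuous_finsetSum _ fun i _ => ?_)
    exact (continuous_const.mul (continuous_apply i)).smul continuous_const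
  have hφcoord : ∀ t i, t i = 100 / 109 * ⟪m i, φ t - w⟫_ℝ := by
    intro t i
    simp only [φ, add_sub_cancel_left]
    rw [hmsum]
    ring
  have hφsurj : ∀ x, ∃ t, φ t = x := by
    intro x
    refine ⟨fun i => 100 / 109 * ⟪m i, x - w⟫_ℝ, ?_⟩
    simp only [φ]
    have h1 : ∀ i, (109 / 100 * (100 / 109 * ⟪m i, x - w⟫_ℝ)) = ⟪m i, x - w⟫_ℝ := by
      intro i; ring
    simp only [h1]
    rw [← hxv (x - w)]
    abel
  have hφinner : ∀ (t : Fin d → ℝ) z, ⟪φ t, z⟫_ℝ =
      ⟪w, z⟫_ℝ + (fun i => 109 / 100 * ⟪v i, z⟫_ℝ) ⬝ᵥ t := by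
    intro t z
    simp only [φ, inner_add_left, sum_inner, dotProduct]
    congr 1
    apply Finset.sum_congr rfl
    intro i _
    rw [real_inner_smul_left]
    ring
  let P : Set (Fin d → ℝ) := ⋂ y ∈ K, {t | ⟪φ t, y - o⟫_ℝ ≤ 1}
  have hPmem : ∀ t, t ∈ P ↔ ∀ y ∈ K, ⟪φ t, y - o⟫_ℝ ≤ 1 := by
    intro t
    simp only [P, Set.mem_iInter, Set.mem_ofPred_eq]
  have hPin : ∀ t : Fin d → ℝ, (∀ i, |t i| ≤ 100 / 109) → t ∈ P := by
    intro t ht
    rw [hPmem]
    exact hin (fun i => 109 / 100 * t i) (fun i => by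
      rw [abs_mul]
      have := ht i
      have h1 : |(109 / 100 : ℝ)| = 109 / 100 := abs_of_pos (by norm_num)
      rw [h1]; linarith)
  have hPout : ∀ t ∈ P, ∀ i, |t i| ≤ 1 := by
    intro t ht i
    obtain ⟨t', h1, h2⟩ := hout (φ t) ((hPmem t).mp ht)
    have h3 := hφcoord t i
    rw [h2, add_sub_cancel_left, hmsum] at h3
    rw [h3, abs_mul]
    have h4 : |(100 / 109 : ℝ)| = 100 / 109 := abs_of_pos (by norm_num)
    have := h1 i
    rw [h4]; linarith
  have hPcl : IsClosed P := by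
    refine isClosed_iInter fun y => isClosed_iInter fun _ => ?_
    exact isClosed_le (hφc.inner continuous_const) continuous_const
  have hPc : IsCompact P := by
    have hbox : IsCompact (Set.univ.pi fun _ : Fin d => Set.Icc (-1 : ℝ) 1) :=
      isCompact_univ_pi fun _ => isCompact_Icc
    refine hbox.of_isClosed_subset hPcl ?_
    intro t ht i _
    exact abs_le.mp (hPout t ht i)
  have hPcv : Convex ℝ P := by
    intro s hs t ht a b ha hb hab
    rw [hPmem] at hs ht ⊢
    intro y hy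
    have h1 := hs y hy
    have h2 := ht y hy
    rw [hφinner] at h1 h2 ⊢
    rw [dotProduct_add, dotProduct_smul, dotProduct_smul, smul_eq_mul, smul_eq_mul]
    have h3 := mul_le_mul_of_nonneg_left h1 ha
    have h4 := mul_le_mul_of_nonneg_left h2 hb
    have h5 : ⟪w, y - o⟫_ℝ = a * ⟪w, y - o⟫_ℝ + b * ⟪w, y - o⟫_ℝ := by
      rw [← add_mul, hab, one_mul]
    linarith
  obtain ⟨x₀, hx₀, hcov0, hcov1⟩ := main P hPc hPcv hPin hPout
  -- the centre is deep inside
  obtain ⟨l₀, hl₀, hl₀'⟩ : ∃ l : ℝ, 0 < l ∧ ∀ y ∈ K, ⟪φ x₀, y - o⟫_ℝ ≤ 1 - l := by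
    obtain ⟨ω, hω⟩ := hφsurj (φ x₀ + (w - w) + φ x₀)
    -- coordinates of `w`
    let η : Fin d → ℝ := fun i => x₀ i + 100 / 109 * ⟪m i, w⟫_ℝ
    set δ : ℝ := 1 / (2 * (1 + ∑ i, |η i|)) with hδ
    have hsum0 : 0 ≤ ∑ i, |η i| := Finset.sum_nonneg fun i _ => abs_nonneg _
    have hδ0 : 0 < δ := by rw [hδ]; positivity
    have hmem : (fun i => x₀ i + δ * η i) ∈ P := by
      apply hx₀
      intro i
      rw [add_sub_cancel_left, abs_mul, abs_of_pos hδ0]
      have h1 : |η i| ≤ ∑ i, |η i| :=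
        Finset.single_le_sum (fun i _ => abs_nonneg (η i)) (mem_univ i)
      have h2 : δ * |η i| ≤ δ * (1 + ∑ i, |η i|) :=
        mul_le_mul_of_nonneg_left (by linarith) hδ0.le
      have h3 : δ * (1 + ∑ i, |η i|) = 1 / 2 := by
        rw [hδ]; field_simp
      linarith
    have hφe : φ (fun i => x₀ i + δ * η i) = (1 + δ) • φ x₀ := by
      simp only [φ, η]
      have h1 : ∀ i, (109 / 100 * (x₀ i + δ * (x₀ i + 100 / 109 * ⟪m i, w⟫_ℝ))) • v i =
          (1 + δ) • ((109 / 100 * x₀ i) • v i) + δ • (⟪m i, w⟫_ℝ • v i) := by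
        intro i
        rw [smul_smul, smul_smul, ← add_smul]
        congr 1
        ring
      simp only [h1]
      rw [Finset.sum_add_distrib, ← Finset.smul_sum, ← Finset.smul_sum, ← hxv w, smul_add]
      module
    refine ⟨δ / (1 + δ), by positivity, fun y hy => ?_⟩
    have h1 := (hPmem _).mp hmem y hy
    rw [hφe, real_inner_smul_left] at h1
    have h2 : ⟪φ x₀, y - o⟫_ℝ ≤ 1 / (1 + δ) := by
      rw [le_div_iff₀ (by linarith)]
      linarith
    have h3 : 1 - δ / (1 + δ) = 1 / (1 + δ) := by field_simp; ring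
    rw [h3]; exact h2
  -- from coverings to hyperplanes
  have hsep : ∀ {ι : Type} [Fintype ι] {n : ℕ} (hn : Fintype.card ι = n) (s : ι → Fin d → ℝ),
      Covers P x₀ s → Separable K o n := by
    intro ι _ n hn s hs
    obtain ⟨c, hc, hs⟩ := hs
    let W : ι → EuclideanSpace ℝ (Fin d) := fun k => ∑ i, (109 / 100 * s k i) • v i
    let e : Fin n ≃ ι := (Fintype.equivFinOfCardEq hn).symm
    refine ⟨fun i => W (e i), fun i => ⟪W (e i), o⟫_ℝ + c * l₀ / 2, ?_⟩
    intro u y₀ hu hy₀ hmax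
    have hle : ∀ y ∈ K, ⟪u, y - o⟫_ℝ ≤ ⟪u, y₀ - o⟫_ℝ := by
      intro y hy
      have := hmax y hy
      rw [inner_sub_right, inner_sub_right]
      linarith
    have hpos : 0 < ⟪u, y₀ - o⟫_ℝ := by
      by_contra hcon
      push Not at hcon
      have key : ∀ (l : ℝ), 0 ≤ l → ∀ i, |⟪m i, l • u - w⟫_ℝ| ≤ 109 / 100 := by
        intro l hl i
        obtain ⟨t, h1, h2⟩ := hout (l • u) (by
          intro y hy
          rw [real_inner_smul_left]
          have h3 := hle y hy
          have h4 : l * ⟪u, y - o⟫_ℝ ≤ 0 :=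
            mul_nonpos_of_nonneg_of_nonpos hl (le_trans h3 hcon)
          linarith)
        rw [h2, add_sub_cancel_left, hmsum]
        exact h1 i
      have hz : ∀ i, ⟪m i, u⟫_ℝ = 0 := by
        intro i
        by_contra hne
        have h1 := key (3 / |⟪m i, u⟫_ℝ|) (by positivity) i
        have h2 := key 0 le_rfl i
        rw [inner_sub_right, real_inner_smul_right] at h1 h2
        rw [zero_mul, zero_sub, abs_neg] at h2
        have h4 : |3 / |⟪m i, u⟫_ℝ| * ⟪m i, u⟫_ℝ| = 3 := by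
          rw [abs_mul, abs_div, abs_abs, div_mul_cancel₀ _ (abs_ne_zero.mpr hne)]
          norm_num
        have h5 := abs_sub_abs_le_abs_sub (3 / |⟪m i, u⟫_ℝ| * ⟪m i, u⟫_ℝ) (⟪m i, w⟫_ℝ)
        linarith
      apply hu
      rw [hxv u]
      apply Finset.sum_eq_zero
      intro i _
      rw [hz i, zero_smul]
    set h := ⟪u, y₀ - o⟫_ℝ with hh
    obtain ⟨t, ht⟩ := hφsurj (h⁻¹ • u)
    have htP : t ∈ P := by
      rw [hPmem]
      intro y hy
      rw [ht, real_inner_smul_left]
      have := mul_le_mul_of_nonneg_left (hle y hy) (inv_nonneg.mpr hpos.le)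
      rwa [inv_mul_cancel₀ hpos.ne'] at this
    obtain ⟨k, hk⟩ := hs t htP
    refine ⟨e.symm k, ?_, ?_⟩
    · simp only
      have : 0 < c * l₀ := mul_pos hc hl₀
      linarith
    · intro y hy hyu
      simp only [Equiv.apply_symm_apply]
      have h1 : ⟪u, y - o⟫_ℝ = h := by
        rw [hh, inner_sub_right, inner_sub_right, hyu]
      have h2 : ⟪φ t, y - o⟫_ℝ = 1 := by
        rw [ht, real_inner_smul_left, h1, inv_mul_cancel₀ hpos.ne']
      have h3 := hk (fun i => 109 / 100 * ⟪v i, y - o⟫_ℝ) (by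
        intro t' ht'
        have h4 := (hPmem t').mp ht' y hy
        rw [← h2, hφinner, hφinner] at h4
        linarith)
      have h4 := hl₀' y hy
      rw [hφinner] at h2 h4
      have h5 : s k ⬝ᵥ (fun i => 109 / 100 * ⟪v i, y - o⟫_ℝ) = ⟪W k, y - o⟫_ℝ := by
        simp only [W, sum_inner, dotProduct]
        apply Finset.sum_congr rfl
        intro i _
        rw [real_inner_smul_left]
        ring
      rw [h5, inner_sub_right] at h3
      have h6 : c * l₀ ≤ c * ((fun i => 109 / 100 * ⟪v i, y - o⟫_ℝ) ⬝ᵥ t -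
          (fun i => 109 / 100 * ⟪v i, y - o⟫_ℝ) ⬝ᵥ x₀) :=
        mul_le_mul_of_nonneg_left (by linarith) hc.le
      have : 0 < c * l₀ := mul_pos hc hl₀
      linarith
  refine ⟨?_, ?_⟩
  · obtain ⟨s, hs⟩ := hcov0
    exact hsep (by simp) s hs
  rcases hcov1 with ⟨M, z, hunit, hM⟩ | ⟨s, hs⟩
  · left
    have hMM : M * M⁻¹ = 1 := Matrix.mul_nonsing_inv M hunit
    -- the normal vectors
    let n : Fin d → EuclideanSpace ℝ (Fin d) := fun i => ∑ k, (100 / 109 * M i k) • m k
    have hn : ∀ t i, (M *ᵥ t) i = ⟪n i, φ t - w⟫_ℝ := by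
      intro t i
      simp only [n, sum_inner, Matrix.mulVec, dotProduct]
      apply Finset.sum_congr rfl
      intro k _
      rw [real_inner_smul_left, hφcoord t k]
      ring
    refine crossBody_of_polar hd K hKc hKcv o n ?_ (fun i => z i + ⟪n i, w⟫_ℝ) ?_
    · rw [Fintype.linearIndependent_iff]
      intro c hc
      have h1 : ∀ t : Fin d → ℝ, c ⬝ᵥ (M *ᵥ t) = 0 := by
        intro t
        have h2 : ⟪∑ i, c i • n i, φ t - w⟫_ℝ = 0 := by rw [hc, inner_zero_left]
        rw [sum_inner] at h2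
        rw [dotProduct, ← h2]
        apply Finset.sum_congr rfl
        intro i _
        rw [real_inner_smul_left, hn]
      intro i
      have h3 := h1 (M⁻¹ *ᵥ Pi.single i 1)
      rw [Matrix.mulVec_mulVec, hMM, Matrix.one_mulVec, dotProduct_single, mul_one] at h3
      exact h3
    · intro x
      obtain ⟨t, rfl⟩ := hφsurj x
      rw [← hPmem, hM]
      apply forall_congr'
      intro i
      rw [hn, inner_sub_right]
      have e : ⟪n i, φ t⟫_ℝ - ⟪n i, w⟫_ℝ - z i = ⟪n i, φ t⟫_ℝ - (z i + ⟪n i, w⟫_ℝ) := by ring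
      rw [e]
  · right
    exact hsep Near.card_nonempty s hs

/-- The theorem for bodies close to a cross-polytope. -/
theorem direct_pairs (hd : 1 ≤ d) (K : Set (EuclideanSpace ℝ (Fin d))) (hKc : IsCompact K)
    (hKcv : Convex ℝ K) (o : EuclideanSpace ℝ (Fin d)) (v : Fin d → EuclideanSpace ℝ (Fin d))
    (hv : LinearIndependent ℝ v) (hvK : ∀ i, o + v i ∈ K ∧ o - v i ∈ K)
    (hfr : ∀ y ∈ K, ∃ t : Fin d → ℝ, ∑ i, |t i| ≤ 109 / 100 ∧ y = o + ∑ i, t i • v i) :
    Separable K o (2 ^ d) ∧ (IsCrossBody K o ∨ Separable K o (2 ^ d - 1)) := by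
  classical
  obtain ⟨m, hmLI, hmv, hxv, hxm⟩ := exists_dual v hv
  refine polar_pairs hd K hKc hKcv o 0 (fun i => (100 / 109 : ℝ) • m i) ?_ ?_ ?_
  · have := hmLI.units_smul fun _ => Units.mk0 (100 / 109 : ℝ) (by norm_num)
    exact this
  · intro t ht y hy
    obtain ⟨s, hs, rfl⟩ := hfr y hy
    rw [zero_add, add_sub_cancel_left, sum_inner]
    have h1 : ∀ i, ⟪t i • (100 / 109 : ℝ) • m i, ∑ j, s j • v j⟫_ℝ = t i * (100 / 109) * s i := by
      intro i
      rw [real_inner_smul_left, real_inner_smul_left, inner_sum, Finset.sum_eq_single i]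
      · rw [real_inner_smul_right, hmv, if_pos rfl]; ring
      · intro j _ hj
        rw [real_inner_smul_right, hmv, if_neg (Ne.symm hj), mul_zero]
      · intro h; exact absurd (mem_univ i) h
    simp only [h1]
    have h2 : ∀ i, t i * (100 / 109) * s i ≤ 100 / 109 * |s i| := by
      intro i
      have h3 := le_abs_self (t i * s i)
      rw [abs_mul] at h3
      have h4 := mul_le_mul_of_nonneg_right (ht i) (abs_nonneg (s i))
      linarith
    have h3 := Finset.sum_le_sum fun i (_ : i ∈ univ) => h2 i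
    rw [← Finset.mul_sum] at h3
    linarith
  · intro x hx
    refine ⟨fun i => 109 / 100 * ⟪v i, x⟫_ℝ, fun i => ?_, ?_⟩
    · have h1 := hx _ (hvK i).1
      have h2 := hx _ (hvK i).2
      rw [add_sub_cancel_left, real_inner_comm] at h1
      have e : o - v i - o = -v i := by abel
      rw [e, inner_neg_right, real_inner_comm] at h2
      have h3 : |⟪v i, x⟫_ℝ| ≤ 1 := abs_le.mpr ⟨by linarith, h1⟩
      rw [abs_mul, abs_of_pos (by norm_num : (0 : ℝ) < 109 / 100)]
      linarith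
    · rw [zero_add]
      conv_lhs => rw [hxm x]
      apply Finset.sum_congr rfl
      intro i _
      rw [smul_smul]
      congr 1
      ring

end Pool.Agent.H99.Abs
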