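import Mathlib

/-!
# Core inequalities for bodies close to a cross-polytope

All statements are about vectors `x p : Fin d → ℝ`; `x` is a point of the polar body of `K` (in
coordinates), `p` a point of `K`.
-/

set_option autoImplicit false

open Finset

namespace Pool.Agent.H99.Near

variable {d : ℕ}

/-- Directions with full weights cover all points `x` whose large coordinates have the right
signs. -/
theorem natural (x e p : Fin d → ℝ) (he : ∀ i, e i = 1 ∨ e i = -1) (hx : ∀ i, |x i| ≤ 1)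
    (hxe : ∀ i, -(3 / 10) ≤ x i * e i) (hp : ∑ i, |p i| ≤ 3 / 2) (hpx : ∑ i, p i * x i = 1) :
    1 / 20 ≤ ∑ i, e i * p i := by
  have key : ∀ i, p i * x i ≤ 13 / 20 * |p i| + 7 / 20 * (e i * p i) := by
    intro i
    have h1 := hx i
    have h2 := hxe i
    rw [abs_le] at h1
    rcases he i with h | h <;> rw [h] at h2 ⊢ <;> rcases abs_cases (p i) with ⟨h3, h4⟩ | ⟨h3, h4⟩ <;>
      rw [h3] <;> nlinarith
  have h := Finset.sum_le_sum fun i (_ : i ∈ Finset.univ) => key i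
  rw [Finset.sum_add_distrib, ← Finset.mul_sum, ← Finset.mul_sum, hpx] at h
  linarith

/-- Auxiliary estimate: the part of `∑ p i * x i` outside of `j`. -/
theorem rest (x p : Fin d → ℝ) (j : Fin d) (m : ℝ) (hm : -1 ≤ m) (hx1 : ∀ i, x i ≤ 1)
    (hxm : ∀ i, i ≠ j → m ≤ x i) :
    ∑ i ∈ univ.erase j, p i * x i ≤
      (1 + m) / 2 * ∑ i ∈ univ.erase j, p i + (1 - m) / 2 * ∑ i ∈ univ.erase j, |p i| := by
  rw [Finset.mul_sum, Finset.mul_sum, ← Finset.sum_add_distrib]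
  apply Finset.sum_le_sum
  intro i hi
  have hij : i ≠ j := (Finset.mem_erase.mp hi).1
  have h1 := hx1 i
  have h2 := hxm i hij
  rcases abs_cases (p i) with ⟨h3, h4⟩ | ⟨h3, h4⟩ <;> rw [h3] <;> nlinarith

/-- All coordinates but the `j`-th are at least `3/10` and the `j`-th is at most `3/10`. -/
theorem single (r : ℝ) (hr0 : 0 < r) (hr1 : r ≤ 1 / 2) (x p : Fin d → ℝ) (j : Fin d)
    (hx : ∀ i, |x i| ≤ 1) (hxj : x j ≤ 3 / 10) (hxi : ∀ i, i ≠ j → 3 / 10 ≤ x i)
    (hpj : |p j| ≤ 1) (hp : ∑ i, |p i| ≤ 1 + r) (hpx : ∑ i, p i * x i = 1) :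
    r / 50 ≤ ∑ i ∈ univ.erase j, p i - 57 / 100 * r * p j := by
  have h := rest x p j (3 / 10) (by norm_num) (fun i => (abs_le.mp (hx i)).2) hxi
  rw [← Finset.add_sum_erase _ _ (Finset.mem_univ j)] at hp hpx
  set A := ∑ i ∈ univ.erase j, p i with hA
  set B := ∑ i ∈ univ.erase j, |p i| with hB
  have hxj' := (abs_le.mp (hx j)).1
  by_contra hcon
  push Not at hcon
  rcases abs_cases (p j) with ⟨h3, h4⟩ | ⟨h3, h4⟩
  · rw [h3] at hp hpj
    nlinarith [mul_nonneg h4 hr0.le, mul_nonneg h4 (sub_nonneg.mpr hxj),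
      mul_nonneg (sub_nonneg.mpr hpj) hr0.le]
  · rw [h3] at hp hpj
    nlinarith [mul_nonneg (neg_nonneg.mpr h4.le) hr0.le,
      mul_nonneg (neg_nonneg.mpr h4.le) (by linarith : (0 : ℝ) ≤ x j + 1),
      mul_nonneg (by linarith : (0 : ℝ) ≤ 1 + p j) hr0.le]

/-- All coordinates are at least `3/10`, and the `j`-th is the smallest. -/
theorem least (r : ℝ) (hr0 : 0 < r) (hr1 : r ≤ 1 / 2) (x y p : Fin d → ℝ) (j : Fin d)
    (hx : ∀ i, |x i| ≤ 1) (hxj : 3 / 10 ≤ x j) (hmin : ∀ i, x j ≤ x i)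
    (hy : ∀ i, 0 ≤ y i) (hys : ∑ i, y i = 1 + r) (hxy : ∑ i, x i * y i ≤ 1)
    (hpj : |p j| ≤ 1) (hp : ∑ i, |p i| ≤ 1 + r) (hpx : ∑ i, p i * x i = 1) :
    r / 50 ≤ ∑ i ∈ univ.erase j, p i - 57 / 100 * r * p j := by
  have hm : x j * (1 + r) ≤ 1 := by
    rw [← hys, Finset.mul_sum]
    refine le_trans (Finset.sum_le_sum fun i _ => ?_) hxy
    exact mul_le_mul_of_nonneg_right (hmin i) (hy i)
  have h := rest x p j (x j) (by linarith) (fun i => (abs_le.mp (hx i)).2) (fun i _ => hmin i)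
  rw [← Finset.add_sum_erase _ _ (Finset.mem_univ j)] at hp hpx
  set A := ∑ i ∈ univ.erase j, p i with hA
  set B := ∑ i ∈ univ.erase j, |p i| with hB
  set m := x j with hmdef
  have hm1 : m ≤ 1 := (abs_le.mp (hx j)).2
  by_contra hcon
  push Not at hcon
  -- bound with `A < κ p j + r / 50` and `B ≤ 1 + r - |p j|`
  have hA' : (1 + m) / 2 * A ≤ (1 + m) / 2 * (57 / 100 * r * p j + r / 50) :=
    mul_le_mul_of_nonneg_left (by linarith) (by linarith)
  have hB' : (1 - m) / 2 * B ≤ (1 - m) / 2 * (1 + r - |p j|) :=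
    mul_le_mul_of_nonneg_left (by linarith) (by linarith)
  have h1 : 1 ≤ p j * m + (1 + m) / 2 * (57 / 100 * r * p j + r / 50) +
      (1 - m) / 2 * (1 + r - |p j|) := by linarith
  rcases abs_cases (p j) with ⟨h3, h4⟩ | ⟨h3, h4⟩
  · rw [h3] at h1 hpj
    -- the coefficient of `p j`
    have hfin : 0 < 2 - 159 / 100 * r - m * (2 - 41 / 100 * r) := by
      nlinarith
    by_cases hg : 0 ≤ m + (1 + m) / 2 * (57 / 100 * r) - (1 - m) / 2
    · have := mul_nonneg hg (sub_nonneg.mpr hpj)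
      nlinarith
    · push Not at hg
      have := mul_nonneg (neg_nonneg.mpr hg.le) h4
      nlinarith
  · rw [h3] at h1 hpj
    nlinarith [mul_nonneg (neg_nonneg.mpr h4.le) (by linarith : (0:ℝ) ≤ m),
      mul_nonneg (mul_nonneg (neg_nonneg.mpr h4.le) hr0.le) (by linarith : (0:ℝ) ≤ 1 + m),
      mul_nonneg (neg_nonneg.mpr h4.le) (by linarith : (0:ℝ) ≤ 1 - m)]

end Pool.Agent.H99.Near
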