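import Pool.Agent.H99.NearCore

/-!
# The families of directions, and the transfer to faces and hyperplanes
-/

set_option autoImplicit false

open Finset
open scoped InnerProductSpace

namespace Pool.Agent.H99.Near

variable {d : ℕ}

/-- The directions for general bodies. -/
noncomputable def dir (r : ℝ) (S : Finset (Fin d)) (i : Fin d) : ℝ :=
  if i ∈ S then (if S.card = 1 then -(57 / 100 * r) else -1) else 1

/-- The directions for symmetric bodies. -/
noncomputable def dir2 (r : ℝ) (S : Finset (Fin d)) (i : Fin d) : ℝ :=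
  if i ∈ S then (if S.card = 1 then -(57 / 100 * r) else -1)
  else (if Sᶜ.card = 1 then 57 / 100 * r else 1)

theorem dir_singleton_sum (r : ℝ) (j : Fin d) (p : Fin d → ℝ) :
    ∑ i, dir r {j} i * p i = ∑ i ∈ univ.erase j, p i - 57 / 100 * r * p j := by
  rw [← Finset.add_sum_erase _ _ (Finset.mem_univ j)]
  have h1 : dir r {j} j = -(57 / 100 * r) := by simp [dir]
  have h2 : ∑ i ∈ univ.erase j, dir r {j} i * p i = ∑ i ∈ univ.erase j, p i := by
    apply Finset.sum_congr rfl
    intro i hi
    have hij : i ≠ j := (Finset.mem_erase.mp hi).1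
    simp [dir, hij]
  rw [h1, h2]
  ring

/-- The conditions on the points `p` of a face. -/
def OnFace (r : ℝ) (x p : Fin d → ℝ) : Prop :=
  (∀ i, |p i| ≤ 1) ∧ ∑ i, |p i| ≤ 1 + r ∧ ∑ i, p i * x i = 1

theorem cover_small (r : ℝ) (hr0 : 0 < r) (hr1 : r ≤ 1 / 2) (x y : Fin d → ℝ)
    (hx : ∀ i, |x i| ≤ 1) (hy : ∀ i, 0 ≤ y i) (hys : ∑ i, y i = 1 + r)
    (hxy : ∑ i, x i * y i ≤ 1) (hL : (univ.filter fun i => x i ≤ 3 / 10).card ≤ 1) :
    ∃ j : Fin d, ∀ p, OnFace r x p →
      r / 50 ≤ ∑ i ∈ univ.erase j, p i - 57 / 100 * r * p j := by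
  rcases Nat.lt_or_ge (univ.filter fun i => x i ≤ 3 / 10).card 1 with h0 | h1
  · -- no small coordinate
    have hne : (univ : Finset (Fin d)).Nonempty := by
      rw [Finset.univ_nonempty_iff]
      by_contra hcon
      rw [not_nonempty_iff] at hcon
      simp at hys
      linarith
    obtain ⟨j, -, hj⟩ := Finset.exists_min_image univ x hne
    refine ⟨j, fun p hp => least r hr0 hr1 x y p j hx ?_ (fun i => hj i (mem_univ i)) hy hys hxy
      (hp.1 j) hp.2.1 hp.2.2⟩
    by_contra hcon
    push Not at hcon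
    have : j ∈ univ.filter fun i => x i ≤ 3 / 10 := by simp [hcon.le]
    have := Finset.card_pos.mpr ⟨j, this⟩
    omega
  · have hc : (univ.filter fun i => x i ≤ 3 / 10).card = 1 := le_antisymm hL h1
    obtain ⟨j, hj⟩ := Finset.card_eq_one.mp hc
    have hjm : j ∈ univ.filter fun i => x i ≤ 3 / 10 := by rw [hj]; simp
    refine ⟨j, fun p hp => single r hr0 hr1 x p j hx (by simpa using hjm) ?_ (hp.1 j) hp.2.1
      hp.2.2⟩
    intro i hij
    by_contra hcon
    push Not at hcon
    have : i ∈ univ.filter fun i => x i ≤ 3 / 10 := by simp [hcon.le]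
    rw [hj] at this
    exact hij (by simpa using this)

/-- The covering lemma for general bodies. -/
theorem cover1 (r : ℝ) (hr0 : 0 < r) (hr1 : r ≤ 1 / 2) (x y : Fin d → ℝ)
    (hx : ∀ i, |x i| ≤ 1) (hy : ∀ i, 0 ≤ y i) (hys : ∑ i, y i = 1 + r)
    (hxy : ∑ i, x i * y i ≤ 1) :
    ∃ S : Finset (Fin d), S.Nonempty ∧ ∀ p, OnFace r x p → r / 50 ≤ ∑ i, dir r S i * p i := by
  rcases Nat.lt_or_ge 1 (univ.filter fun i => x i ≤ 3 / 10).card with h2 | h1
  · set L := univ.filter fun i => x i ≤ 3 / 10 with hLdef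
    refine ⟨L, Finset.card_pos.mp (by omega), ?_⟩
    intro p hp
    have hc : L.card ≠ 1 := by omega
    have hd : ∀ i, dir r L i = if i ∈ L then -1 else 1 := by
      intro i; simp only [dir, hc, if_false]
    have h := natural x (fun i => if i ∈ L then -1 else 1) p
      (fun i => by by_cases h : i ∈ L <;> simp [h]) hx ?_ (by linarith [hp.2.1]) hp.2.2
    · simp only [hd]
      linarith
    · intro i
      have hxi := abs_le.mp (hx i)
      by_cases h : i ∈ L
      · have : x i ≤ 3 / 10 := by simpa [hLdef] using h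
        simp only [h, if_true]; linarith
      · have : ¬ x i ≤ 3 / 10 := by simpa [hLdef] using h
        simp only [h, if_false]; linarith
  · obtain ⟨j, hj⟩ := cover_small r hr0 hr1 x y hx hy hys hxy h1
    refine ⟨{j}, Finset.singleton_nonempty j, fun p hp => ?_⟩
    rw [dir_singleton_sum]
    exact hj p hp

/-- The covering lemma for symmetric bodies. -/
theorem cover2 (hd : 4 ≤ d) (r : ℝ) (hr0 : 0 < r) (hr1 : r ≤ 1 / 2) (x y : Fin d → ℝ)
    (hx : ∀ i, |x i| ≤ 1) (hy : ∀ i, 0 ≤ y i) (hys : ∑ i, y i = 1 + r)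
    (hxy : |∑ i, x i * y i| ≤ 1) :
    ∃ S : Finset (Fin d), S.Nonempty ∧ Sᶜ.Nonempty ∧
      ∀ p, OnFace r x p → r / 50 ≤ ∑ i, dir2 r S i * p i := by
  have hcomp : ∀ S : Finset (Fin d), S.card + Sᶜ.card = d := by
    intro S; rw [Finset.card_add_card_compl, Fintype.card_fin]
  set L := univ.filter fun i => x i ≤ 3 / 10 with hLdef
  set U := univ.filter fun i => -x i ≤ 3 / 10 with hUdef
  rcases Nat.lt_or_ge 1 L.card with h2 | h1
  · rcases Nat.lt_or_ge 1 U.card with h3 | h3
    · -- natural directions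
      have hUL : Uᶜ ⊆ L := by
        intro i hi
        simp only [hUdef, hLdef, mem_compl, mem_filter, mem_univ, true_and] at hi ⊢
        linarith
      have hUc := hcomp U
      obtain ⟨S, hS1, hS2, hS3⟩ := Finset.exists_subsuperset_card_eq hUL
        (le_max_left Uᶜ.card 2) (by
          apply max_le (Finset.card_le_card hUL) (by omega))
      have hSc : 2 ≤ S.card ∧ S.card ≤ d - 2 := by
        rw [hS3]; constructor
        · exact le_max_right _ _
        · apply max_le <;> omega
      have hS4 := hcomp S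
      refine ⟨S, Finset.card_pos.mp (by omega), Finset.card_pos.mp (by omega), ?_⟩
      intro p hp
      have hc1 : S.card ≠ 1 := by omega
      have hc2 : Sᶜ.card ≠ 1 := by omega
      have hdd : ∀ i, dir2 r S i = if i ∈ S then -1 else 1 := by
        intro i; simp only [dir2, hc1, hc2, if_false]
      have h := natural x (fun i => if i ∈ S then -1 else 1) p
        (fun i => by by_cases h : i ∈ S <;> simp [h]) hx ?_ (by linarith [hp.2.1]) hp.2.2
      · simp only [hdd]
        linarith
      · intro i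
        have hxi := abs_le.mp (hx i)
        by_cases h : i ∈ S
        · have : x i ≤ 3 / 10 := by simpa [hLdef] using hS2 h
          simp only [h, if_true]; linarith
        · have : i ∉ Uᶜ := fun h' => h (hS1 h')
          have : -x i ≤ 3 / 10 := by
            simpa [hUdef] using this
          simp only [h, if_false]; linarith
    · -- few coordinates which are not very negative: use the symmetry
      obtain ⟨j, hj⟩ := cover_small r hr0 hr1 (fun i => -x i) y (fun i => by
        rw [abs_neg]; exact hx i) hy hys (by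
          have := (abs_le.mp hxy).1
          simp only [neg_mul, Finset.sum_neg_distrib]
          linarith) h3
      have hjc : ({j}ᶜ : Finset (Fin d))ᶜ = {j} := compl_compl _
      have hj1 := hcomp {j}
      rw [Finset.card_singleton] at hj1
      have hcj : ({j}ᶜ : Finset (Fin d)).card ≠ 1 := by omega
      refine ⟨{j}ᶜ, Finset.card_pos.mp (by omega), by rw [hjc]; exact Finset.singleton_nonempty j,
        ?_⟩
      intro p hp
      have h := hj (fun i => -p i) ⟨fun i => by rw [abs_neg]; exact hp.1 i, by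
        simp only [abs_neg]; exact hp.2.1, by
        simp only [neg_mul_neg]; exact hp.2.2⟩
      rw [← Finset.add_sum_erase _ _ (Finset.mem_univ j)]
      have e1 : dir2 r {j}ᶜ j = 57 / 100 * r := by
        simp [dir2]
      have e2 : ∑ i ∈ univ.erase j, dir2 r {j}ᶜ i * p i = -∑ i ∈ univ.erase j, p i := by
        rw [← Finset.sum_neg_distrib]
        apply Finset.sum_congr rfl
        intro i hi
        have hij : i ≠ j := (Finset.mem_erase.mp hi).1
        have : i ∈ ({j}ᶜ : Finset (Fin d)) := by simp [hij]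
        simp only [dir2, this, if_true, hcj, if_false]
        ring
      rw [e1, e2]
      simp only [Finset.sum_neg_distrib] at h
      linarith
  · obtain ⟨j, hj⟩ := cover_small r hr0 hr1 x y hx hy hys (abs_le.mp hxy).2 h1
    have hj1 := hcomp {j}
    rw [Finset.card_singleton] at hj1
    have hcj : ({j}ᶜ : Finset (Fin d)).card ≠ 1 := by omega
    refine ⟨{j}, Finset.singleton_nonempty j, Finset.card_pos.mp (by omega), ?_⟩
    intro p hp
    have e : ∀ i, dir2 r {j} i = dir r {j} i := by
      intro i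
      simp only [dir2, dir, hcj, if_false]
    simp only [e]
    rw [dir_singleton_sum]
    exact hj p hp

/-- The faces of `K` are strictly separated from `o` by `n` hyperplanes. -/
def Separable (K : Set (EuclideanSpace ℝ (Fin d))) (o : EuclideanSpace ℝ (Fin d)) (n : ℕ) :
    Prop :=
  ∃ w : Fin n → EuclideanSpace ℝ (Fin d), ∃ b : Fin n → ℝ,
    ∀ u x₀ : EuclideanSpace ℝ (Fin d), u ≠ 0 → x₀ ∈ K →
      (∀ y ∈ K, ⟪u, y⟫_ℝ ≤ ⟪u, x₀⟫_ℝ) →
        ∃ i, ⟪w i, o⟫_ℝ < b i ∧ ∀ x ∈ K, ⟪u, x⟫_ℝ = ⟪u, x₀⟫_ℝ → b i < ⟪w i, x⟫_ℝ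

/-- From directions in coordinates to hyperplanes. -/
theorem separable_of_cover {ι : Type} [Fintype ι] {n : ℕ} (hn : Fintype.card ι = n)
    (K : Set (EuclideanSpace ℝ (Fin d))) (o : EuclideanSpace ℝ (Fin d))
    (v : Fin d → EuclideanSpace ℝ (Fin d)) (hv : LinearIndependent ℝ v)
    (hvK : ∀ i, o + v i ∈ K ∧ o - v i ∈ K) (s : ι → Fin d → ℝ) (c : ℝ) (hc : 0 < c)
    (hs : ∀ x : Fin d → ℝ, (∀ i, |x i| ≤ 1) →
      (∀ t : Fin d → ℝ, o + ∑ i, t i • v i ∈ K → ∑ i, t i * x i ≤ 1) →
      ∃ k, ∀ t : Fin d → ℝ, o + ∑ i, t i • v i ∈ K → ∑ i, t i * x i = 1 →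
        c ≤ ∑ i, s k i * t i) :
    Separable K o n := by
  classical
  have hcard : Fintype.card (Fin d) = Module.finrank ℝ (EuclideanSpace ℝ (Fin d)) := by simp
  let B : Module.Basis (Fin d) ℝ (EuclideanSpace ℝ (Fin d)) :=
    basisOfLinearIndependentOfCardEqFinrank' v hv hcard
  have hB : ∀ i, B i = v i := fun i => by simp [B]
  -- the functionals
  let f : ι → (EuclideanSpace ℝ (Fin d) →L[ℝ] ℝ) := fun k =>
    LinearMap.toContinuousLinearMap (B.constr ℝ (s k))
  let W : ι → EuclideanSpace ℝ (Fin d) := fun k =>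
    (InnerProductSpace.toDual ℝ (EuclideanSpace ℝ (Fin d))).symm (f k)
  have hW : ∀ k z, ⟪W k, z⟫_ℝ = f k z := fun k z =>
    InnerProductSpace.toDual_symm_apply
  have hfv : ∀ k i, f k (v i) = s k i := by
    intro k i
    rw [← hB i]
    show (B.constr ℝ (s k)) (B i) = s k i
    rw [Module.Basis.constr_basis]
  have hrep : ∀ z : EuclideanSpace ℝ (Fin d), ∃ t : Fin d → ℝ, z = o + ∑ i, t i • v i := by
    intro z
    refine ⟨fun i => B.repr (z - o) i, ?_⟩
    have := B.sum_repr (z - o)
    simp only [hB] at this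
    rw [this]; abel
  let e : Fin n ≃ ι := (Fintype.equivFinOfCardEq hn).symm
  refine ⟨fun i => W (e i), fun i => ⟪W (e i), o⟫_ℝ + c / 2, ?_⟩
  intro u x₀ hu hx₀ hmax
  -- the height of the supporting hyperplane
  set h := ⟪u, x₀⟫_ℝ - ⟪u, o⟫_ℝ with hh
  have hvle : ∀ i, |⟪u, v i⟫_ℝ| ≤ h := by
    intro i
    have h1 := hmax _ (hvK i).1
    have h2 := hmax _ (hvK i).2
    rw [inner_add_right] at h1
    rw [inner_sub_right] at h2
    rw [abs_le]; constructor <;> linarith
  have hpos : 0 < h := by
    by_contra hcon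
    push Not at hcon
    have hz : ∀ i, ⟪u, v i⟫_ℝ = 0 := fun i => by
      have := hvle i
      have h0 := abs_nonneg (⟪u, v i⟫_ℝ)
      exact abs_eq_zero.mp (le_antisymm (le_trans this hcon) h0)
    have e1 : ∑ i, B.repr u i • v i = u := by
      have := B.sum_repr u
      simpa only [hB] using this
    have e2 : ⟪u, ∑ i, B.repr u i • v i⟫_ℝ = 0 := by
      rw [inner_sum]
      apply Finset.sum_eq_zero
      intro i _
      rw [inner_smul_right, hz i, mul_zero]
    rw [e1] at e2
    exact hu (inner_self_eq_zero.mp e2)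
  let x : Fin d → ℝ := fun i => ⟪u, v i⟫_ℝ / h
  have hinner : ∀ t : Fin d → ℝ, ⟪u, o + ∑ i, t i • v i⟫_ℝ = ⟪u, o⟫_ℝ + h * ∑ i, t i * x i := by
    intro t
    rw [inner_add_right, inner_sum, Finset.mul_sum]
    congr 1
    apply Finset.sum_congr rfl
    intro i _
    rw [inner_smul_right]
    simp only [x]
    field_simp
  obtain ⟨k, hk⟩ := hs x (fun i => by
      simp only [x]
      rw [abs_div, abs_of_pos hpos, div_le_one hpos]
      exact hvle i) (fun t ht => by
      have := hmax _ ht
      rw [hinner] at this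
      have h2 : h * ∑ i, t i * x i ≤ h * 1 := by rw [mul_one]; linarith
      exact le_of_mul_le_mul_left h2 hpos)
  refine ⟨e.symm k, ?_, ?_⟩
  · simp only [Equiv.apply_symm_apply]; linarith
  · intro z hz hzu
    obtain ⟨t, rfl⟩ := hrep z
    simp only [Equiv.apply_symm_apply]
    rw [hinner] at hzu
    have h1 : ∑ i, t i * x i = 1 := by
      have h2 : h * ∑ i, t i * x i = h * 1 := by rw [mul_one]; linarith
      exact mul_left_cancel₀ hpos.ne' h2
    have h3 := hk t hz h1
    have h4 : ⟪W k, o + ∑ i, t i • v i⟫_ℝ = ⟪W k, o⟫_ℝ + ∑ i, s k i * t i := by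
      rw [inner_add_right, inner_sum]
      congr 1
      apply Finset.sum_congr rfl
      intro i _
      rw [inner_smul_right, hW, hfv]
      ring
    rw [h4]
    linarith

end Pool.Agent.H99.Near
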