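import Mathlib

/-!
# A good frame for symmetric bodies close to the cross-polytope
-/

set_option autoImplicit false

open Finset Matrix

namespace Pool.Agent.H99.Near

variable {d : ℕ}

theorem exists_frame_matrix (T : Set (Fin d → ℝ)) (hTc : IsCompact T) (hTcv : Convex ℝ T)
    (hTs : ∀ t ∈ T, -t ∈ T) (hTe : ∀ i, Pi.single i (1 : ℝ) ∈ T)
    (hT1 : ∀ t ∈ T, ∑ i, |t i| ≤ 23 / 20) :
    ∃ M : Matrix (Fin d) (Fin d) ℝ, (∀ i, M i ∈ T) ∧ IsUnit M.det ∧
      ∀ t ∈ T, (∀ i, |(t ᵥ* M⁻¹) i| ≤ 1) ∧ ∑ i, |(t ᵥ* M⁻¹) i| ≤ 3 / 2 := by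
  classical
  -- the compact set of matrices
  let R : Set (Fin d → Fin d → ℝ) := Set.univ.pi fun i => T ∩ {t | 7 / 10 ≤ t i}
  have hR : IsCompact R := isCompact_univ_pi fun i =>
    hTc.inter_right (isClosed_le continuous_const (continuous_apply i))
  have h1R : (fun i => Pi.single i (1 : ℝ)) ∈ R := by
    intro i _
    refine ⟨hTe i, ?_⟩
    simp only [Set.mem_ofPred_eq, Pi.single_eq_same]
    norm_num
  have hcont : Continuous fun A : Fin d → Fin d → ℝ => |(Matrix.of A).det| :=
    (Continuous.matrix_det continuous_id).abs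
  obtain ⟨M0, hM0, hmax⟩ := hR.exists_isMaxOn ⟨_, h1R⟩ hcont.continuousOn
  let M : Matrix (Fin d) (Fin d) ℝ := Matrix.of M0
  have hMT : ∀ i, M i ∈ T := fun i => (hM0 i (Set.mem_univ i)).1
  have hMd : ∀ i, 7 / 10 ≤ M i i := fun i => (hM0 i (Set.mem_univ i)).2
  have hD1 : 1 ≤ |M.det| := by
    have h := hmax h1R
    simp only [Set.mem_ofPred_eq] at h
    have h1 : Matrix.of (fun i => Pi.single i (1 : ℝ)) = (1 : Matrix (Fin d) (Fin d) ℝ) := by
      ext i j
      simp [Matrix.one_apply, Pi.single_apply, eq_comm]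
    rw [h1, Matrix.det_one, abs_one] at h
    exact h
  have hD0 : 0 < |M.det| := by linarith
  have hunit : IsUnit M.det := by
    rw [isUnit_iff_ne_zero]
    intro h0
    rw [h0, abs_zero] at hD0
    exact lt_irrefl _ hD0
  have hMM : M * M⁻¹ = 1 := Matrix.mul_nonsing_inv M hunit
  have hMM' : M⁻¹ * M = 1 := Matrix.nonsing_inv_mul M hunit
  -- coordinates
  have hcoord : ∀ t : Fin d → ℝ, ∑ k, (t ᵥ* M⁻¹) k • M k = t := by
    intro t
    have h : (t ᵥ* M⁻¹) ᵥ* M = t := by rw [Matrix.vecMul_vecMul, hMM', Matrix.vecMul_one]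
    conv_rhs => rw [← h]
    ext j
    simp [Matrix.vecMul, dotProduct]
  have hrow : ∀ i j, ∑ k, M i k * M⁻¹ k j = if i = j then 1 else 0 := by
    intro i j
    have := congrFun (congrFun hMM i) j
    rw [Matrix.mul_apply, Matrix.one_apply] at this
    exact this
  have hrow1 : ∀ t ∈ T, ∑ k, |t k| ≤ 23 / 20 := hT1
  -- replacing a row
  have hrepl : ∀ i, ∀ t ∈ T, 7 / 10 ≤ t i → |(t ᵥ* M⁻¹) i| ≤ 1 := by
    intro i t ht hti
    have hmem : (fun k => M.updateRow i t k) ∈ R := by
      intro k _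
      by_cases hk : k = i
      · subst hk
        simp only [Matrix.updateRow_self]
        exact ⟨ht, hti⟩
      · simp only [Matrix.updateRow_ne hk]
        exact ⟨hMT k, hMd k⟩
    have h := hmax hmem
    simp only [Set.mem_ofPred_eq] at h
    have h2 : (Matrix.of fun k => M.updateRow i t k) = M.updateRow i t := rfl
    have h3 : (M.updateRow i t).det = (t ᵥ* M⁻¹) i * M.det := by
      conv_lhs => rw [← hcoord t]
      rw [Matrix.det_updateRow_sum]
      rfl
    rw [h2, h3, abs_mul] at h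
    have h4 : |(t ᵥ* M⁻¹) i| * |M.det| ≤ 1 * |M.det| := by rw [one_mul]; exact h
    exact le_of_mul_le_mul_right h4 hD0
  have hsingle : ∀ k i, ((Pi.single k (1 : ℝ)) ᵥ* M⁻¹) i = M⁻¹ k i := by
    intro k i
    rw [Matrix.single_one_vecMul]
    rfl
  have hdiag : ∀ i, |M⁻¹ i i| ≤ 1 := by
    intro i
    have h := hrepl i _ (hTe i) (by simp only [Pi.single_eq_same]; norm_num)
    rwa [hsingle] at h
  -- the off-diagonal entries in column `i`
  have hcol : ∀ i k, k ≠ i → |M⁻¹ k i| * M k k ≤ 23 / 20 - M k k := by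
    intro i
    -- the largest entry of the column is the diagonal one
    obtain ⟨k0, -, hk0⟩ := Finset.exists_max_image univ (fun k => |M⁻¹ k i|) ⟨i, mem_univ i⟩
    have hk0' : ∀ k, |M⁻¹ k i| ≤ |M⁻¹ k0 i| := fun k => hk0 k (mem_univ k)
    have hest : ∀ k, k ≠ i → |M⁻¹ k i| * M k k ≤ (23 / 20 - M k k) * |M⁻¹ k0 i| := by
      intro k hk
      have h1 := hrow k i
      rw [if_neg hk, ← Finset.add_sum_erase _ _ (mem_univ k)] at h1
      have h2 : |M k k * M⁻¹ k i| = |∑ l ∈ univ.erase k, M k l * M⁻¹ l i| := by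
        rw [eq_neg_of_add_eq_zero_left h1, abs_neg]
      have hMk : 0 ≤ M k k := by linarith [hMd k]
      rw [abs_mul, abs_of_nonneg hMk] at h2
      have h3 : |∑ l ∈ univ.erase k, M k l * M⁻¹ l i| ≤
          ∑ l ∈ univ.erase k, |M k l| * |M⁻¹ k0 i| := by
        refine le_trans (Finset.abs_sum_le_sum_abs _ _) (Finset.sum_le_sum fun l _ => ?_)
        rw [abs_mul]
        exact mul_le_mul_of_nonneg_left (hk0' l) (abs_nonneg _)
      rw [← Finset.sum_mul] at h3
      have h4 := hrow1 _ (hMT k)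
      rw [← Finset.add_sum_erase _ _ (mem_univ k), abs_of_nonneg hMk] at h4
      have h5 := mul_le_mul_of_nonneg_right
        (by linarith : ∑ l ∈ univ.erase k, |M k l| ≤ 23 / 20 - M k k) (abs_nonneg (M⁻¹ k0 i))
      calc |M⁻¹ k i| * M k k = M k k * |M⁻¹ k i| := mul_comm _ _
        _ ≤ _ := by linarith
    have hk0i : |M⁻¹ k0 i| ≤ 1 := by
      by_cases h : k0 = i
      · rw [h]; exact hdiag i
      · have h1 := hest k0 h
        have h2 := hMd k0
        have h3 := abs_nonneg (M⁻¹ k0 i)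
        nlinarith
    intro k hk
    have h1 := hest k hk
    have h2 : 0 ≤ 23 / 20 - M k k := by
      have h3 := hrow1 _ (hMT k)
      have h4 : |M k k| ≤ ∑ l, |M k l| :=
        Finset.single_le_sum (fun l _ => abs_nonneg (M k l)) (mem_univ k)
      have h5 := le_abs_self (M k k)
      linarith
    have h3 := mul_le_mul_of_nonneg_left hk0i h2
    linarith
  -- the diagonal entries of `M` are close to one
  have hdiag2 : ∀ i, 96 / 100 ≤ M i i := by
    rcases isEmpty_or_nonempty (Fin d) with he | hne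
    · intro i; exact he.elim i
    obtain ⟨i, -, hi⟩ := Finset.exists_min_image univ (fun k => M k k)
      (Finset.univ_nonempty (α := Fin d))
    have hmin : ∀ k, M i i ≤ M k k := fun k => hi k (mem_univ k)
    have hc := hMd i
    have h1 := hrow i i
    rw [if_pos rfl, ← Finset.add_sum_erase _ _ (mem_univ i)] at h1
    have hMi : 0 ≤ M i i := by linarith
    have h4 := hrow1 _ (hMT i)
    rw [← Finset.add_sum_erase _ _ (mem_univ i), abs_of_nonneg hMi] at h4
    have h2 : M i i * (∑ k ∈ univ.erase i, M i k * M⁻¹ k i) ≤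
        (23 / 20 - M i i) * (∑ k ∈ univ.erase i, |M i k|) := by
      rw [Finset.mul_sum, Finset.mul_sum]
      apply Finset.sum_le_sum
      intro k hk
      have hki : k ≠ i := (Finset.mem_erase.mp hk).1
      have h5 := hcol i k hki
      have h6 : M i i * |M⁻¹ k i| ≤ 23 / 20 - M i i := by
        have h7 := mul_le_mul_of_nonneg_left (hmin k) (abs_nonneg (M⁻¹ k i))
        have h8 := hmin k
        nlinarith
      calc M i i * (M i k * M⁻¹ k i) ≤ M i i * |M i k * M⁻¹ k i| :=
            mul_le_mul_of_nonneg_left (le_abs_self _) hMi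
        _ = |M i k| * (M i i * |M⁻¹ k i|) := by rw [abs_mul]; ring
        _ ≤ |M i k| * (23 / 20 - M i i) := mul_le_mul_of_nonneg_left h6 (abs_nonneg _)
        _ = (23 / 20 - M i i) * |M i k| := mul_comm _ _
    have h3 : M i i * (M i i * M⁻¹ i i) ≤ M i i * M i i := by
      have := le_trans (le_abs_self _) (hdiag i)
      nlinarith [mul_nonneg hMi hMi]
    have h0 : 0 ≤ 23 / 20 - M i i := by
      have : 0 ≤ ∑ k ∈ univ.erase i, |M i k| := Finset.sum_nonneg fun k _ => abs_nonneg _
      linarith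
    have h5 : M i i ≤ M i i * M i i + (23 / 20 - M i i) * (23 / 20 - M i i) := by
      have e : M i i = M i i * (M i i * M⁻¹ i i) +
          M i i * (∑ k ∈ univ.erase i, M i k * M⁻¹ k i) := by
        rw [← mul_add, h1, mul_one]
      have h6 := mul_le_mul_of_nonneg_left
        (by linarith : ∑ k ∈ univ.erase i, |M i k| ≤ 23 / 20 - M i i) h0
      linarith
    have h7 : 96 / 100 ≤ M i i := by
      by_contra hcon
      push Not at hcon
      nlinarith [mul_nonneg (sub_nonneg.mpr hc) (sub_nonneg.mpr hcon.le)]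
    exact fun k => le_trans h7 (hmin k)
  -- the coordinates are bounded by one
  have hself : ∀ i, ((M i) ᵥ* M⁻¹) i = 1 := by
    intro i
    have := hrow i i
    rw [if_pos rfl] at this
    rw [← this]
    simp [Matrix.vecMul, dotProduct]
  have hle : ∀ t ∈ T, ∀ i, (t ᵥ* M⁻¹) i ≤ 1 := by
    intro t ht i
    have hmem : (9 / 10 : ℝ) • M i + (1 / 10 : ℝ) • t ∈ T :=
      hTcv (hMT i) ht (by norm_num) (by norm_num) (by norm_num)
    have hti : -(23 / 20) ≤ t i := by
      have h1 := hrow1 t ht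
      have h2 : |t i| ≤ ∑ l, |t l| :=
        Finset.single_le_sum (fun l _ => abs_nonneg (t l)) (mem_univ i)
      have h3 := neg_abs_le (t i)
      linarith
    have h1 := hrepl i _ hmem (by
      simp only [Pi.add_apply, Pi.smul_apply, smul_eq_mul]
      linarith [hdiag2 i])
    rw [Matrix.add_vecMul, Matrix.smul_vecMul, Matrix.smul_vecMul] at h1
    simp only [Pi.add_apply, Pi.smul_apply, smul_eq_mul] at h1
    rw [hself i] at h1
    have h2 := (abs_le.mp h1).2
    linarith
  refine ⟨M, hMT, hunit, fun t ht => ⟨fun i => ?_, ?_⟩⟩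
  · rw [abs_le]
    refine ⟨?_, hle t ht i⟩
    have h := hle (-t) (hTs t ht) i
    rw [Matrix.neg_vecMul, Pi.neg_apply] at h
    linarith
  · -- the `ℓ₁` norm
    set f := t ᵥ* M⁻¹ with hf
    have h1 : ∀ k, |f k| * M k k - ∑ i ∈ univ.erase k, |f i| * |M i k| ≤ |t k| := by
      intro k
      have h2 : t k = ∑ i, f i * M i k := by
        conv_lhs => rw [← hcoord t]
        simp [hf]
      rw [h2, ← Finset.add_sum_erase _ _ (mem_univ k)]
      have hMk : 0 ≤ M k k := by linarith [hMd k]
      have h3 : |f k| * M k k = |f k * M k k| := by rw [abs_mul, abs_of_nonneg hMk]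
      have h4 : |∑ i ∈ univ.erase k, f i * M i k| ≤ ∑ i ∈ univ.erase k, |f i| * |M i k| := by
        refine le_trans (Finset.abs_sum_le_sum_abs _ _) (Finset.sum_le_sum fun l _ => ?_)
        rw [abs_mul]
      have h5 := abs_sub_abs_le_abs_sub (f k * M k k) (-∑ i ∈ univ.erase k, f i * M i k)
      rw [sub_neg_eq_add, abs_neg] at h5
      linarith
    have h2 := Finset.sum_le_sum fun k (_ : k ∈ univ) => h1 k
    rw [Finset.sum_sub_distrib] at h2
    have h3 : ∑ k, ∑ i ∈ univ.erase k, |f i| * |M i k| =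
        ∑ i, |f i| * ∑ k ∈ univ.erase i, |M i k| := by
      simp_rw [Finset.mul_sum]
      rw [Finset.sum_comm' (t' := univ) (s' := fun i => univ.erase i)]
      intro x y
      simp [eq_comm]
    rw [h3, ← Finset.sum_sub_distrib] at h2
    have h4 : ∑ i, 77 / 100 * |f i| ≤ ∑ i, (|f i| * M i i - |f i| * ∑ k ∈ univ.erase i, |M i k|) := by
      apply Finset.sum_le_sum
      intro i _
      have h5 := hrow1 _ (hMT i)
      have hMi : 0 ≤ M i i := by linarith [hMd i]
      rw [← Finset.add_sum_erase _ _ (mem_univ i), abs_of_nonneg hMi] at h5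
      have h6 := hdiag2 i
      have h7 : 77 / 100 ≤ M i i - ∑ k ∈ univ.erase i, |M i k| := by linarith
      have h8 := mul_le_mul_of_nonneg_left h7 (abs_nonneg (f i))
      rw [mul_sub] at h8
      linarith
    rw [← Finset.mul_sum] at h4
    have h5 := hrow1 t ht
    linarith

end Pool.Agent.H99.Near
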