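import Pool.Agent.H99.NearCover
import Pool.Agent.H99.NearMatrix

/-!
# Convex bodies close to a cross-polytope: the theorem for a given frame
-/

set_option autoImplicit false

open Finset
open scoped InnerProductSpace

namespace Pool.Agent.H99.Near

variable {d : ℕ}

/-- The cross-polytope `conv {o ± v i}`. -/
def cross (o : EuclideanSpace ℝ (Fin d)) (v : Fin d → EuclideanSpace ℝ (Fin d)) :
    Set (EuclideanSpace ℝ (Fin d)) :=
  convexHull ℝ (⋃ i, ({o + v i, o - v i} : Set (EuclideanSpace ℝ (Fin d))))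

theorem mem_cross_of_sum_le (hd : 1 ≤ d) (o : EuclideanSpace ℝ (Fin d))
    (v : Fin d → EuclideanSpace ℝ (Fin d)) (t : Fin d → ℝ) (ht : ∑ i, |t i| ≤ 1) :
    o + ∑ i, t i • v i ∈ cross o v := by
  have hcv : Convex ℝ (cross o v) := convex_convexHull ℝ _
  have hp : ∀ i, o + v i ∈ cross o v := fun i =>
    subset_convexHull ℝ _ (Set.mem_iUnion.mpr ⟨i, by simp⟩)
  have hm : ∀ i, o - v i ∈ cross o v := fun i =>
    subset_convexHull ℝ _ (Set.mem_iUnion.mpr ⟨i, by simp⟩)
  have ho : o ∈ cross o v := by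
    have h := hcv (hp ⟨0, hd⟩) (hm ⟨0, hd⟩) (by norm_num : (0 : ℝ) ≤ 1 / 2)
      (by norm_num : (0 : ℝ) ≤ 1 / 2) (by norm_num)
    have e : (1 / 2 : ℝ) • (o + v ⟨0, hd⟩) + (1 / 2 : ℝ) • (o - v ⟨0, hd⟩) = o := by
      module
    rwa [e] at h
  let z : Option (Fin d) → EuclideanSpace ℝ (Fin d) := fun k =>
    k.elim o fun i => if 0 ≤ t i then o + v i else o - v i
  let w : Option (Fin d) → ℝ := fun k => k.elim (1 - ∑ i, |t i|) fun i => |t i|
  have hz : ∀ k ∈ (univ : Finset (Option (Fin d))), z k ∈ cross o v := by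
    intro k _
    cases k with
    | none => exact ho
    | some i =>
      show (if 0 ≤ t i then o + v i else o - v i) ∈ _
      split_ifs
      · exact hp i
      · exact hm i
  have hw : ∀ k ∈ (univ : Finset (Option (Fin d))), 0 ≤ w k := by
    intro k _
    cases k with
    | none => show 0 ≤ 1 - ∑ i, |t i|; linarith
    | some i => exact abs_nonneg _
  have hw1 : ∑ k, w k = 1 := by
    rw [Fintype.sum_option]
    show 1 - ∑ i, |t i| + ∑ i, |t i| = 1
    ring
  have h := hcv.sum_mem hw hw1 hz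
  rw [Fintype.sum_option] at h
  have e : w none • z none + ∑ i, w (some i) • z (some i) = o + ∑ i, t i • v i := by
    have e1 : ∀ i, w (some i) • z (some i) = |t i| • o + t i • v i := by
      intro i
      show |t i| • (if 0 ≤ t i then o + v i else o - v i) = _
      split_ifs with h
      · rw [abs_of_nonneg h, smul_add]
      · push Not at h
        rw [abs_of_neg h, smul_sub]
        module
    simp only [e1]
    rw [Finset.sum_add_distrib, ← Finset.sum_smul]
    show (1 - ∑ i, |t i|) • o + _ = _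
    rw [sub_smul, one_smul]
    abel
  rwa [e] at h

/-- The number of nonempty sets of indices. -/
theorem card_nonempty : Fintype.card {S : Finset (Fin d) // S.Nonempty} = 2 ^ d - 1 := by
  classical
  have h : Fintype.card {S : Finset (Fin d) // ¬ S.Nonempty} = 1 := by
    rw [Fintype.card_eq_one_iff]
    refine ⟨⟨∅, by simp⟩, ?_⟩
    rintro ⟨S, hS⟩
    simpa [Finset.not_nonempty_iff_eq_empty] using hS
  have h2 := Fintype.card_subtype_compl (fun S : Finset (Fin d) => ¬ S.Nonempty)
  rw [h, Fintype.card_finset, Fintype.card_fin] at h2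
  simpa only [not_not] using h2

/-- The number of nonempty proper subsets of the set of indices. -/
theorem card_proper (hd : 1 ≤ d) :
    Fintype.card {S : Finset (Fin d) // S.Nonempty ∧ Sᶜ.Nonempty} = 2 ^ d - 2 := by
  classical
  have : Nonempty (Fin d) := ⟨⟨0, hd⟩⟩
  have h : Fintype.card {S : Finset (Fin d) // ¬ (S.Nonempty ∧ Sᶜ.Nonempty)} = 2 := by
    rw [Fintype.card_subtype]
    have : (univ.filter fun S : Finset (Fin d) => ¬ (S.Nonempty ∧ Sᶜ.Nonempty)) =
        {∅, univ} := by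
      ext S
      simp only [mem_filter, mem_univ, true_and, mem_insert, mem_singleton, not_and_or,
        Finset.not_nonempty_iff_eq_empty, Finset.compl_eq_empty_iff]
    rw [this, Finset.card_pair]
    exact (Finset.univ_nonempty.ne_empty).symm
  have h2 := Fintype.card_subtype_compl (fun S : Finset (Fin d) => ¬ (S.Nonempty ∧ Sᶜ.Nonempty))
  rw [h, Fintype.card_finset, Fintype.card_fin] at h2
  simpa only [not_not] using h2

/-- All `2 ^ d` directions. -/
theorem cover0 (r : ℝ) (hr1 : r ≤ 1 / 2) (x : Fin d → ℝ) (hx : ∀ i, |x i| ≤ 1) :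
    ∃ S : Finset (Fin d), ∀ p, OnFace r x p →
      1 / 20 ≤ ∑ i, (if i ∈ S then (-1 : ℝ) else 1) * p i := by
  refine ⟨univ.filter fun i => x i ≤ 0, fun p hp => ?_⟩
  refine natural x _ p (fun i => ?_) hx (fun i => ?_) (by linarith [hp.2.1]) hp.2.2
  · by_cases h : x i ≤ 0 <;> simp [h]
  · by_cases h : x i ≤ 0
    · simp only [mem_filter, mem_univ, true_and, h, if_true]; linarith
    · simp only [mem_filter, mem_univ, true_and, h, if_false]; linarith

/-- The theorem for a given frame. -/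
theorem frame (hd : 1 ≤ d) (K : Set (EuclideanSpace ℝ (Fin d))) (hKcv : Convex ℝ K)
    (hKc : IsCompact K) (o : EuclideanSpace ℝ (Fin d)) (v : Fin d → EuclideanSpace ℝ (Fin d))
    (hv : LinearIndependent ℝ v) (hvK : ∀ i, o + v i ∈ K ∧ o - v i ∈ K)
    (hfr : ∀ x ∈ K, ∃ t : Fin d → ℝ, (∀ i, |t i| ≤ 1) ∧ ∑ i, |t i| ≤ 3 / 2 ∧
      x = o + ∑ i, t i • v i) :
    Separable K o (2 ^ d) ∧ (K = cross o v ∨ Separable K o (2 ^ d - 1)) ∧
      (4 ≤ d → (∀ x ∈ K, (2 : ℝ) • o - x ∈ K) → K = cross o v ∨ Separable K o (2 ^ d - 2)) := by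
  classical
  have hcard : Fintype.card (Fin d) = Module.finrank ℝ (EuclideanSpace ℝ (Fin d)) := by simp
  let B : Module.Basis (Fin d) ℝ (EuclideanSpace ℝ (Fin d)) :=
    basisOfLinearIndependentOfCardEqFinrank' v hv hcard
  have hB : ∀ i, B i = v i := fun i => by simp [B]
  have huniq : ∀ t t' : Fin d → ℝ, o + ∑ i, t i • v i = o + ∑ i, t' i • v i → t = t' := by
    intro t t' h
    have h1 := add_left_cancel h
    have h2 : ∑ i, (t i - t' i) • v i = 0 := by
      simp only [sub_smul, Finset.sum_sub_distrib]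
      rw [h1, sub_self]
    have h3 := Fintype.linearIndependent_iff.mp hv _ h2
    funext i
    linarith [h3 i]
  -- coordinates of points of `K`
  have hK1 : ∀ t : Fin d → ℝ, o + ∑ i, t i • v i ∈ K →
      (∀ i, |t i| ≤ 1) ∧ ∑ i, |t i| ≤ 3 / 2 := by
    intro t ht
    obtain ⟨t', h1, h2, h3⟩ := hfr _ ht
    rw [huniq t t' h3]
    exact ⟨h1, h2⟩
  refine ⟨?_, ?_⟩
  · -- the bound `2 ^ d`
    refine separable_of_cover (ι := Finset (Fin d)) (by simp) K o v hv hvK
      (fun S i => if i ∈ S then -1 else 1) (1 / 20) (by norm_num) ?_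
    intro x hx _
    obtain ⟨S, hS⟩ := cover0 (1 / 2) le_rfl x hx
    refine ⟨S, fun t ht h1 => hS t ⟨(hK1 t ht).1, ?_, h1⟩⟩
    have := (hK1 t ht).2
    linarith
  -- the largest `ℓ₁` norm
  let g : EuclideanSpace ℝ (Fin d) → ℝ := fun x => ∑ i, |B.repr (x - o) i|
  have hgc : Continuous g := by
    refine continuous_finsetSum _ fun i _ => ?_
    apply Continuous.abs
    have : Continuous fun z : EuclideanSpace ℝ (Fin d) => B.repr z i :=
      LinearMap.continuous_of_finiteDimensional (B.coord i)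
    exact this.comp (continuous_id.sub continuous_const)
  have hgt : ∀ t : Fin d → ℝ, g (o + ∑ i, t i • v i) = ∑ i, |t i| := by
    intro t
    simp only [g]
    apply Finset.sum_congr rfl
    intro i _
    have : o + ∑ i, t i • v i - o = ∑ i, t i • B i := by
      simp only [hB]; abel
    rw [this, B.repr_sum_self]
  have hKne : K.Nonempty := ⟨_, (hvK ⟨0, hd⟩).1⟩
  obtain ⟨xs, hxsK, hxs⟩ := hKc.exists_isMaxOn hKne hgc.continuousOn
  obtain ⟨ts, hts1, hts2, rfl⟩ := hfr xs hxsK
  have hmax : ∀ t : Fin d → ℝ, o + ∑ i, t i • v i ∈ K → ∑ i, |t i| ≤ ∑ i, |ts i| := by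
    intro t ht
    have h := hxs ht
    simp only [Set.mem_ofPred_eq] at h
    rwa [hgt, hgt] at h
  have hcrossK : cross o v ⊆ K := by
    apply convexHull_min _ hKcv
    intro z hz
    obtain ⟨i, hi⟩ := Set.mem_iUnion.mp hz
    rcases hi with h | h
    · rw [h]; exact (hvK i).1
    · rw [Set.mem_singleton_iff] at h
      rw [h]; exact (hvK i).2
  by_cases hM : ∑ i, |ts i| ≤ 1
  · have hKcross : K = cross o v := by
      apply Set.Subset.antisymm _ hcrossK
      intro z hz
      obtain ⟨t, -, -, rfl⟩ := hfr z hz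
      exact mem_cross_of_sum_le hd o v t (le_trans (hmax t hz) hM)
    exact ⟨Or.inl hKcross, fun _ _ => Or.inl hKcross⟩
  push Not at hM
  -- flip the signs
  set r := ∑ i, |ts i| - 1 with hr
  have hr0 : 0 < r := by linarith
  have hr1 : r ≤ 1 / 2 := by linarith
  let σ : Fin d → ℝˣ := fun i => if 0 ≤ ts i then 1 else -1
  have hσ : ∀ i, (σ i : ℝ) = 1 ∨ (σ i : ℝ) = -1 := by
    intro i
    simp only [σ]
    split_ifs <;> simp
  have hσσ : ∀ i, (σ i : ℝ) * (σ i : ℝ) = 1 := by
    intro i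
    rcases hσ i with h | h <;> rw [h] <;> norm_num
  have hσabs : ∀ i, |(σ i : ℝ)| = 1 := by
    intro i
    rcases hσ i with h | h <;> rw [h] <;> norm_num
  have hσt : ∀ i, (σ i : ℝ) * ts i = |ts i| := by
    intro i
    simp only [σ]
    split_ifs with h
    · simp [abs_of_nonneg h]
    · push Not at h
      simp [abs_of_neg h]
  let v' : Fin d → EuclideanSpace ℝ (Fin d) := fun i => (σ i : ℝ) • v i
  have hv' : LinearIndependent ℝ v' := hv.units_smul σ
  have hsum' : ∀ t : Fin d → ℝ, ∑ i, t i • v' i = ∑ i, ((σ i : ℝ) * t i) • v i := by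
    intro t
    apply Finset.sum_congr rfl
    intro i _
    simp only [v', smul_smul]
    rw [mul_comm]
  have hvK' : ∀ i, o + v' i ∈ K ∧ o - v' i ∈ K := by
    intro i
    simp only [v']
    rcases hσ i with h | h <;> rw [h]
    · simpa using hvK i
    · simpa [sub_eq_add_neg] using (hvK i).symm
  have hK' : ∀ t : Fin d → ℝ, o + ∑ i, t i • v' i ∈ K →
      (∀ i, |t i| ≤ 1) ∧ ∑ i, |t i| ≤ 1 + r := by
    intro t ht
    rw [hsum'] at ht
    have h1 := (hK1 _ ht).1
    have h2 := hmax _ ht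
    have e : ∀ i, |(σ i : ℝ) * t i| = |t i| := fun i => by rw [abs_mul, hσabs, one_mul]
    simp only [e] at h1 h2
    exact ⟨h1, by linarith⟩
  let y : Fin d → ℝ := fun i => |ts i|
  have hyK : o + ∑ i, y i • v' i ∈ K := by
    rw [hsum']
    have : ∀ i, (σ i : ℝ) * y i = ts i := by
      intro i
      simp only [y]
      rw [← hσt i, ← mul_assoc, hσσ, one_mul]
    simp only [this]
    exact hxsK
  have hys : ∑ i, y i = 1 + r := by simp only [y]; rw [hr]; ring
  refine ⟨Or.inr ?_, fun h4 hsym => Or.inr ?_⟩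
  · refine separable_of_cover (ι := {S : Finset (Fin d) // S.Nonempty}) card_nonempty K o v' hv'
      hvK' (fun S => dir r S.1) (r / 50) (by linarith) ?_
    intro x hx hxK
    have hxy : ∑ i, x i * y i ≤ 1 := by
      have := hxK y hyK
      simpa only [mul_comm] using this
    obtain ⟨S, hS1, hS2⟩ := cover1 r hr0 hr1 x y hx (fun i => abs_nonneg _) hys hxy
    exact ⟨⟨S, hS1⟩, fun t ht h1 => hS2 t ⟨(hK' t ht).1, (hK' t ht).2, h1⟩⟩
  · refine separable_of_cover (ι := {S : Finset (Fin d) // S.Nonempty ∧ Sᶜ.Nonempty})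
      (card_proper hd) K o v' hv' hvK' (fun S => dir2 r S.1) (r / 50) (by linarith) ?_
    intro x hx hxK
    have hxy1 : ∑ i, x i * y i ≤ 1 := by
      have := hxK y hyK
      simpa only [mul_comm] using this
    have hxy2 : -1 ≤ ∑ i, x i * y i := by
      have h1 := hsym _ hyK
      have e : (2 : ℝ) • o - (o + ∑ i, y i • v' i) = o + ∑ i, (-y i) • v' i := by
        simp only [neg_smul, Finset.sum_neg_distrib]
        module
      rw [e] at h1
      have h2 := hxK _ h1
      have e2 : ∑ i, -y i * x i = -∑ i, x i * y i := by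
        rw [← Finset.sum_neg_distrib]
        apply Finset.sum_congr rfl
        intro i _
        ring
      rw [e2] at h2
      linarith
    obtain ⟨S, hS1, hS2, hS3⟩ := cover2 h4 r hr0 hr1 x y hx (fun i => abs_nonneg _) hys
      (abs_le.mpr ⟨hxy2, hxy1⟩)
    exact ⟨⟨S, hS1, hS2⟩, fun t ht h1 => hS3 t ⟨(hK' t ht).1, (hK' t ht).2, h1⟩⟩

end Pool.Agent.H99.Near
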