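import Pool.Agent.H99.NearFrame

/-!
# Convex bodies close to a cross-polytope: Banach-Mazur form and sharpness
-/

set_option autoImplicit false

open Finset
open scoped InnerProductSpace Matrix

namespace Pool.Agent.H99.Near

variable {d : ℕ}

/-- The theorem for symmetric bodies close to a cross-polytope in the sense of Banach and Mazur. -/
theorem banachMazur (hd : 1 ≤ d) (K : Set (EuclideanSpace ℝ (Fin d))) (hKcv : Convex ℝ K)
    (hKc : IsCompact K) (o : EuclideanSpace ℝ (Fin d)) (hsym : ∀ x ∈ K, (2 : ℝ) • o - x ∈ K)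
    (v : Fin d → EuclideanSpace ℝ (Fin d)) (hv : LinearIndependent ℝ v)
    (hvK : ∀ i, o + v i ∈ K)
    (hfr : ∀ x ∈ K, ∃ t : Fin d → ℝ, ∑ i, |t i| ≤ 23 / 20 ∧ x = o + ∑ i, t i • v i) :
    ∃ u : Fin d → EuclideanSpace ℝ (Fin d), LinearIndependent ℝ u ∧
      (∀ i, o + u i ∈ K ∧ o - u i ∈ K) ∧
      ∀ x ∈ K, ∃ t : Fin d → ℝ, (∀ i, |t i| ≤ 1) ∧ ∑ i, |t i| ≤ 3 / 2 ∧
        x = o + ∑ i, t i • u i := by
  classical
  have huniq : ∀ t t' : Fin d → ℝ, o + ∑ i, t i • v i = o + ∑ i, t' i • v i → t = t' := by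
    intro t t' h
    have h1 := add_left_cancel h
    have h2 : ∑ i, (t i - t' i) • v i = 0 := by
      simp only [sub_smul, Finset.sum_sub_distrib]
      rw [h1, sub_self]
    have h3 := Fintype.linearIndependent_iff.mp hv _ h2
    funext i
    linarith [h3 i]
  let φ : (Fin d → ℝ) → EuclideanSpace ℝ (Fin d) := fun t => o + ∑ i, t i • v i
  have hφc : Continuous φ := by
    refine continuous_const.add (continuous_finsetSum _ fun i _ => ?_)
    exact (continuous_apply i).smul continuous_const
  let T : Set (Fin d → ℝ) := φ ⁻¹' K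
  have hT1 : ∀ t ∈ T, ∑ i, |t i| ≤ 23 / 20 := by
    intro t ht
    obtain ⟨t', h1, h2⟩ := hfr _ ht
    rw [huniq t t' h2]
    exact h1
  have hTc : IsCompact T := by
    have hbox : IsCompact (Set.univ.pi fun _ : Fin d => Set.Icc (-(23 / 20) : ℝ) (23 / 20)) :=
      isCompact_univ_pi fun _ => isCompact_Icc
    refine hbox.of_isClosed_subset (hKc.isClosed.preimage hφc) ?_
    intro t ht i _
    have h1 := hT1 t ht
    have h2 : |t i| ≤ ∑ l, |t l| :=
      Finset.single_le_sum (fun l _ => abs_nonneg (t l)) (mem_univ i)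
    exact abs_le.mp (le_trans h2 h1)
  have hTcv : Convex ℝ T := by
    intro s hs t ht a b ha hb hab
    show φ (a • s + b • t) ∈ K
    have h := hKcv hs ht ha hb hab
    have e : φ (a • s + b • t) = a • φ s + b • φ t := by
      simp only [φ, Pi.add_apply, Pi.smul_apply, smul_eq_mul, smul_add, Finset.smul_sum,
        add_smul, Finset.sum_add_distrib, smul_smul]
      have : o = a • o + b • o := by rw [← add_smul, hab, one_smul]
      conv_lhs => rw [this]
      abel
    rw [e]
    exact h
  have hTs : ∀ t ∈ T, -t ∈ T := by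
    intro t ht
    show φ (-t) ∈ K
    have h := hsym _ ht
    have e : (2 : ℝ) • o - φ t = φ (-t) := by
      simp only [φ, Pi.neg_apply, neg_smul, Finset.sum_neg_distrib]
      module
    rwa [e] at h
  have hTe : ∀ i, Pi.single i (1 : ℝ) ∈ T := by
    intro i
    show φ (Pi.single i 1) ∈ K
    have e : φ (Pi.single i 1) = o + v i := by
      simp only [φ]
      congr 1
      rw [Finset.sum_eq_single i]
      · simp
      · intro j _ hj
        simp [Pi.single_eq_of_ne hj]
      · intro h; exact absurd (mem_univ i) h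
    rw [e]
    exact hvK i
  obtain ⟨M, hM1, hM2, hM3⟩ := exists_frame_matrix T hTc hTcv hTs hTe hT1
  let u : Fin d → EuclideanSpace ℝ (Fin d) := fun i => ∑ k, M i k • v k
  have hsum : ∀ f : Fin d → ℝ, ∑ i, f i • u i = ∑ k, (f ᵥ* M) k • v k := by
    intro f
    simp only [u, Finset.smul_sum, smul_smul]
    rw [Finset.sum_comm]
    apply Finset.sum_congr rfl
    intro k _
    rw [← Finset.sum_smul]
    rfl
  refine ⟨u, ?_, ?_, ?_⟩
  · rw [Fintype.linearIndependent_iff]
    intro f hf
    rw [hsum] at hf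
    have h1 := Fintype.linearIndependent_iff.mp hv _ hf
    have h2 : f ᵥ* M = 0 := funext h1
    have h3 : f = 0 := by
      have := congrArg (fun g => g ᵥ* M⁻¹) h2
      simp only [Matrix.vecMul_vecMul, Matrix.mul_nonsing_inv M hM2, Matrix.vecMul_one,
        Matrix.zero_vecMul] at this
      exact this
    intro i
    rw [h3]
    rfl
  · intro i
    have h1 : o + u i ∈ K := hM1 i
    refine ⟨h1, ?_⟩
    have h2 := hsym _ h1
    have e : (2 : ℝ) • o - (o + u i) = o - u i := by module
    rwa [e] at h2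
  · intro x hx
    obtain ⟨t, -, rfl⟩ := hfr x hx
    obtain ⟨h1, h2⟩ := hM3 t hx
    refine ⟨t ᵥ* M⁻¹, h1, h2, ?_⟩
    rw [hsum, Matrix.vecMul_vecMul, Matrix.nonsing_inv_mul M hM2, Matrix.vecMul_one]

/-- Lower bound: faces of `K` which contain a facet of the standard cross-polytope. -/
theorem lower (hd : 1 ≤ d) (K : Set (EuclideanSpace ℝ (Fin d)))
    (hK : ∀ i, EuclideanSpace.single i (1 : ℝ) ∈ K ∧ -EuclideanSpace.single i (1 : ℝ) ∈ K)
    (𝓔 : Finset (Finset (Fin d)))
    (h𝓔 : ∀ S ∈ 𝓔, ∀ x ∈ K, ∑ i, (if i ∈ S then (-1 : ℝ) else 1) * x i ≤ 1)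
    (n : ℕ) (hn : Separable K 0 n) : 𝓔.card ≤ n := by
  classical
  obtain ⟨w, b, h⟩ := hn
  let ε : Finset (Fin d) → Fin d → ℝ := fun S i => if i ∈ S then -1 else 1
  let u : Finset (Fin d) → EuclideanSpace ℝ (Fin d) := fun S => WithLp.toLp 2 (ε S)
  have hu : ∀ S (x : EuclideanSpace ℝ (Fin d)), ⟪u S, x⟫_ℝ = ∑ i, ε S i * x i := by
    intro S x
    simp only [u, PiLp.inner_apply, RCLike.inner_apply, conj_trivial]
    apply Finset.sum_congr rfl
    intro i _
    ring
  -- the points `ε_k e_k`
  let z : Finset (Fin d) → Fin d → EuclideanSpace ℝ (Fin d) := fun S k =>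
    if k ∈ S then -EuclideanSpace.single k (1 : ℝ) else EuclideanSpace.single k (1 : ℝ)
  have hzK : ∀ S k, z S k ∈ K := by
    intro S k
    simp only [z]
    split_ifs
    · exact (hK k).2
    · exact (hK k).1
  have huz : ∀ S k, ⟪u S, z S k⟫_ℝ = 1 := by
    intro S k
    have e : ⟪u S, EuclideanSpace.single k (1 : ℝ)⟫_ℝ = ε S k := by
      rw [hu, Finset.sum_eq_single k]
      · simp
      · intro j _ hj
        simp [hj]
      · intro h; exact absurd (mem_univ k) h
    simp only [z]
    by_cases hk : k ∈ S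
    · simp only [hk, if_true]
      rw [inner_neg_right, e]
      simp [ε, hk]
    · simp only [hk, if_false]
      rw [e]
      simp [ε, hk]
  have key : ∀ S : {S // S ∈ 𝓔}, ∃ i, 0 < b i ∧ ∀ k, b i < ⟪w i, z S.1 k⟫_ℝ := by
    rintro ⟨S, hS⟩
    have hne : u S ≠ 0 := by
      intro h0
      have := huz S ⟨0, hd⟩
      rw [h0, inner_zero_left] at this
      exact zero_ne_one this
    obtain ⟨i, hi1, hi2⟩ := h (u S) (z S ⟨0, hd⟩) hne (hzK S _) (by
      intro y hy
      rw [huz, hu]
      exact h𝓔 S hS y hy)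
    rw [inner_zero_right] at hi1
    refine ⟨i, hi1, fun k => hi2 _ (hzK S k) ?_⟩
    rw [huz, huz]
  choose f hf1 hf2 using key
  have hinj : Function.Injective f := by
    intro S S' hSS
    apply Subtype.ext
    ext k
    have h1 := hf2 S k
    have h2 := hf2 S' k
    have h0 := hf1 S
    rw [← hSS] at h2
    simp only [z] at h1 h2
    by_cases hk : k ∈ S.1 <;> by_cases hk' : k ∈ S'.1
    · simp [hk, hk']
    · simp only [hk, hk', if_true, if_false] at h1 h2
      rw [inner_neg_right] at h1
      linarith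
    · simp only [hk, hk', if_true, if_false] at h1 h2
      rw [inner_neg_right] at h2
      linarith
    · simp [hk, hk']
  have := Fintype.card_le_of_injective f hinj
  simpa using this

end Pool.Agent.H99.Near
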